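import Pool.Agent.Lib.KQ.Blue
import Pool.Agent.Lib.EXS.K32
import Pool.Agent.Lib.HS32.B_LAP

/-! Project kq, row KIT: calculus of the squared norm of a holomorphic map. -/

open scoped Classical Topology ContDiff ComplexOrder Matrix ENNReal
open Set MeasureTheory Complex Metric Filter

noncomputable section

namespace Pool.Agent.Lib.KQ

open Pool.Agent.Lib.SV (E nsq)
open Pool.Agent.Lib.HS32
open Pool.Agent.Lib.KH (OnK SmK HoK dbv)
open Pool.Agent.Lib.EXS.K32 (lv lv_eq lv_nsq cd_nsq hol_apply hol_cd)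

namespace KIT

variable {n q : ℕ} {F : E n → E q} {z : E n} {A B : Mat n}

theorem psd (hA : A.IsHermitian) (h : ∀ v, 0 ≤ nq A v) : A.PosSemidef :=
  .of_dotProduct_mulVec_nonneg hA fun v =>
    Complex.nonneg_iff.2 ⟨h v, (hA.im_star_dotProduct_mulVec_self v).symm⟩

theorem nq_sub (A B : Mat n) (v : E n) : nq (A - B) v = nq A v - nq B v := by
  simp only [nq, Matrix.sub_mulVec, dotProduct_sub, sub_re]

theorem nq_smul (t : ℝ) (A : Mat n) (v : E n) : nq (t • A) v = t * nq A v := by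
  simp only [nq, Matrix.smul_mulVec, dotProduct_smul, real_smul, re_ofReal_mul]

theorem herm_smul (t : ℝ) (hA : A.IsHermitian) : (t • A).IsHermitian := by
  rw [Matrix.IsHermitian, Matrix.conjTranspose_smul, hA.eq, star_trivial]

theorem herm_ext (hA : A.IsHermitian) (hB : B.IsHermitian) (h : ∀ v, nq A v = nq B v) :
    A = B := by
  have h0 := hA.sub hB
  have h1 : (A - B).PosSemidef := psd h0 fun v => by rw [nq_sub, h, sub_self]
  refine sub_eq_zero.1 (Matrix.ext_iff_mulVec.2 fun v => ?_)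
  rw [Matrix.zero_mulVec, ← h1.dotProduct_mulVec_zero_iff]
  refine Complex.ext ?_ (h0.im_star_dotProduct_mulVec_self v)
  have := nq_sub A B v
  rw [h, sub_self] at this
  exact this

theorem dzb_hol {f : E n → ℂ} (h : HolN f z) (j : Fin n) : dzb j f z = 0 :=
  ((mHOL n f z).1 (cd_diff (hol_cd h))).1 h.self_of_nhds j

theorem fd_sum (h : HolN F z) (v : E n) (l : Fin q) :
    fderiv ℂ F z v l = ∑ j, dz j (fun w => F w l) z * v j := by
  have h1 := hol_apply h l
  have h2 := fderiv_eq_sum (fun w => F w l) z v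
  simp only [dzb_hol h1, zero_mul, add_zero] at h2
  rw [← h2, h1.self_of_nhds.fderiv_restrictScalars ℝ, fderiv_apply h.self_of_nhds l]
  rfl

theorem dbv_nsq (h : HolN F z) (v : E n) : dbv (fun w => (nsq (F w) : ℂ)) z v =
    star (∑ l, fderiv ℂ F z v l * (starRingEnd ℂ) (F z l)) := by
  have hd := fun l => cd_diff (hol_cd (hol_apply h l))
  have e : (fun w => (nsq (F w) : ℂ)) = fun w => ∑ l, F w l * star (F w l) := by
    funext w
    simp only [nsq, ofReal_sum, Complex.star_def, Complex.mul_conj]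
  have e2 : ∀ i, dzb i (fun w => ∑ l, F w l * star (F w l)) z =
      ∑ l, F z l * star (dz i (fun w => F w l) z) := fun i => by
    rw [dzb_sum fun l _ => (hd l).fun_mul (diff_star (hd l))]
    refine Finset.sum_congr rfl fun l _ => ?_
    rw [dzb_mul (hd l) (diff_star (hd l)), dzb_hol (hol_apply h l), dzb_star (hd l), zero_mul,
      zero_add]
  simp only [dbv, e, e2]
  simp only [fd_sum h, star_sum, star_mul', Finset.mul_sum, Finset.sum_mul,
    Complex.star_def, conj_conj]
  rw [Finset.sum_comm]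
  exact Finset.sum_congr rfl fun l _ => Finset.sum_congr rfl fun i _ => by ring

theorem dbv_le (h : HolN F z) (v : E n) : normSq (dbv (fun w => (nsq (F w) : ℂ)) z v) ≤
    nsq (F z) * nsq (fderiv ℂ F z v) := by
  rw [dbv_nsq h, Complex.star_def, normSq_conj]
  exact SV.FS.cs _ _

theorem nq_dd {u : E n → ℝ} (hu : ContDiffAt ℝ ∞ u z) (v : E n) :
    nq (dd (fun w => (u w : ℂ)) (fun w => (u w : ℂ)) z) v =
      normSq (dbv (fun w => (u w : ℂ)) z v) := by
  have hd := cd_diff (cd_ofReal hu)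
  have e : star v ⬝ᵥ dd (fun w => (u w : ℂ)) (fun w => (u w : ℂ)) z *ᵥ v =
      dbv (fun w => (u w : ℂ)) z v * star (dbv (fun w => (u w : ℂ)) z v) := by
    simp only [dbv, dd, dotProduct, Matrix.mulVec, Matrix.of_apply, star_sum, star_mul',
      star_star, star_dzb_ofReal hd, Pi.star_apply, Finset.mul_sum, Finset.sum_mul]
    rw [Finset.sum_comm]
    exact Finset.sum_congr rfl fun l _ => Finset.sum_congr rfl fun i _ => by ring
  rw [nq, e, Complex.star_def, Complex.mul_conj, ofReal_re]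

theorem dd_herm {u : E n → ℝ} (hu : ContDiffAt ℝ ∞ u z) :
    (dd (fun w => (u w : ℂ)) (fun w => (u w : ℂ)) z).IsHermitian := by
  have hd := cd_diff (cd_ofReal hu)
  ext i j
  simp only [Matrix.conjTranspose_apply, dd, Matrix.of_apply, star_mul', star_dzb_ofReal hd,
    star_dz_ofReal hd, mul_comm]

theorem nq_hn (h : HolN F z) (v : E n) :
    nq (hess (fun w => (nsq (F w) : ℂ)) z) v = nsq (fderiv ℂ F z v) := lv_nsq h v

theorem item3 (h : HolN F z) : (nsq (F z) • hess (fun w => (nsq (F w) : ℂ)) z -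
    dd (fun w => (nsq (F w) : ℂ)) (fun w => (nsq (F w) : ℂ)) z).PosSemidef := by
  refine psd ((herm_smul _ (hess_herm (cd_nsq h))).sub (dd_herm (cd_nsq h))) fun v => ?_
  rw [nq_sub, nq_smul, nq_hn h, nq_dd (cd_nsq h)]
  exact sub_nonneg.2 (dbv_le h v)

theorem item4 (h : HolN F z) (c : E q) : hess (fun w => (nsq (F w - c) : ℂ)) z =
    hess (fun w => (nsq (F w) : ℂ)) z := by
  have h1 : HolN (fun w => F w - c) z := h.mono fun w hw => hw.sub_const c
  refine herm_ext (hess_herm (cd_nsq h1)) (hess_herm (cd_nsq h)) fun v => ?_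
  rw [nq_hn h1, nq_hn h, fderiv_sub_const]

theorem item5 (h : HolN F z) (t : ℝ) : hess (fun w => (nsq ((t : ℂ) • F w) : ℂ)) z =
    t ^ 2 • hess (fun w => (nsq (F w) : ℂ)) z := by
  have h1 : HolN (fun w => (t : ℂ) • F w) z := h.mono fun w hw => hw.fun_const_smul _
  refine herm_ext (hess_herm (cd_nsq h1)) (herm_smul _ (hess_herm (cd_nsq h))) fun v => ?_
  rw [nq_smul, nq_hn h1, nq_hn h, fderiv_fun_const_smul h.self_of_nhds]
  simp only [nsq, smul_apply, Pi.smul_apply, smul_eq_mul, normSq_mul,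
    normSq_ofReal, Finset.mul_sum, sq]

theorem item6 (h : HolN F z) {s : ℝ} (hs : 0 ≤ s) (hp : 0 < nsq (F z) + s) :
    ContDiffAt ℝ ∞ (fun w => Real.log (nsq (F w) + s)) z ∧
      (hess (fun w => (Real.log (nsq (F w) + s) : ℂ)) z -
        (s / (nsq (F z) + s) ^ 2) • hess (fun w => (nsq (F w) : ℂ)) z).PosSemidef := by
  have h1 : ContDiffAt ℝ ∞ (fun w => Real.log (nsq (F w) + s)) z :=
    ((cd_nsq h).add contDiffAt_const).log hp.ne'
  refine ⟨h1, psd ((hess_herm h1).sub (herm_smul _ (hess_herm (cd_nsq h)))) fun v => ?_⟩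
  have h2 := ((SV.stFS SV.stSMO n (Fin q) F z s hs h hp).2 v).1
  have h3 := lv_eq h1 v
  have h4 := SV.FS.cs (fderiv ℂ F z v) (F z)
  rw [h2, lv] at h3
  rw [nq_sub, nq_smul, nq_hn h, h3]
  have h5 := div_nonneg (sub_nonneg.2 h4) (pow_pos hp 2).le
  refine h5.trans_eq ?_
  ring

theorem item7 (h : HolN F z) {φ : ℝ → ℝ} (hφ : ContDiff ℝ ∞ φ) {g : E n → ℂ} (hg : HolN g z)
    (v : E n) : normSq (dbv (fun w => (φ (nsq (F w)) : ℂ) * g w) z v) ≤
      deriv φ (nsq (F z)) ^ 2 * normSq (g z) * nsq (F z) *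
        nq (hess (fun w => (nsq (F w) : ℂ)) z) v := by
  have h1 := cd_nsq h
  have h2 : ContDiffAt ℝ ∞ (fun w => φ (nsq (F w))) z := hφ.contDiffAt.comp z h1
  have h3 : HasDerivAt φ (deriv φ (nsq (F z))) (nsq (F z)) :=
    (hφ.differentiable (by simp) _).hasDerivAt
  have e : dbv (fun w => (φ (nsq (F w)) : ℂ) * g w) z v =
      (deriv φ (nsq (F z)) : ℝ) * g z * dbv (fun w => (nsq (F w) : ℂ)) z v := by
    simp only [dbv, Finset.mul_sum]
    refine Finset.sum_congr rfl fun i _ => ?_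
    rw [dzb_mul (cd_diff (cd_ofReal h2)) (cd_diff (hol_cd hg)), dzb_hol hg,
      dzb_comp_real (u := fun w => nsq (F w)) h3 (cd_diff h1)]
    ring
  rw [e, normSq_mul, normSq_mul, normSq_ofReal, nq_hn h, ← sq, mul_assoc (_ * _)]
  exact mul_le_mul_of_nonneg_left (dbv_le h v) (mul_nonneg (sq_nonneg _) (normSq_nonneg _))

theorem holN {M : Mf n} {O : Set M.X} {f : M.X → E q} (hf : HoV M O f) :
    OnK M O fun d z => HolN (fun w => f (d.symm w)) z := fun d hd z hz hO =>
  (eventually_all.2 fun i => hf i d hd z hz hO).mono fun _ hw => differentiableAt_pi.2 hw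

theorem hs_eq (M : Mf n) (u : M.X → ℝ) (d : M.Ch) (z : E n) :
    M.hs u d z = hess (fun w => (u (d.symm w) : ℂ)) z := rfl

theorem ds_eq (M : Mf n) (u : M.X → ℝ) (d : M.Ch) (z : E n) : M.ds u u d z =
    dd (fun w => (u (d.symm w) : ℂ)) (fun w => (u (d.symm w) : ℂ)) z := rfl

end KIT

open KIT in
theorem qKIT : St_KIT := by
  intro n M O q f hO hf
  have hF := holN hf
  refine ⟨fun d hd z hz h => cd_nsq (hF d hd z hz h), fun x hx => ?_, fun d hd z hz h => ?_,
    fun φ g hφ hg => ⟨fun d hd z hz h => hφ.contDiffAt.comp z (cd_nsq (hF d hd z hz h)),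
      fun d hd z hz h => ?_, fun d hd z hz h => ?_⟩⟩
  · obtain ⟨h1, h2⟩ := (mTR n M).1 x
    have h3 := hF _ h1 _ ((M.ch x).map_source h2) (by rwa [(M.ch x).left_inv h2])
    have h4 := h3.self_of_nhds.continuousAt.comp ((M.ch x).continuousAt h2)
    refine (h4.congr ?_).continuousWithinAt
    filter_upwards [(M.ch x).eventually_left_inverse h2] with y hy
    simp only [Function.comp_apply, hy]
  · have h1 := hF d hd z hz h
    simp only [hn, hs_eq, ds_eq, Function.comp_def]
    have a2 := nq_hn h1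
    have a1 := psd (hess_herm (cd_nsq h1)) fun v => (a2 v).ge.trans' (SV.nsq_nonneg _)
    have a3 := item3 h1
    have a4 := item4 h1
    have a5 := item5 h1
    have a6 := fun s => item6 (s := s) h1
    exact ⟨a1, a2, a3, a4, a5, a6⟩
  · exact (cd_ofReal (hφ.contDiffAt.comp z (cd_nsq (hF d hd z hz h)))).mul
      (hol_cd (hg d hd z hz h))
  · have h1 := hF d hd z hz h
    have h2 : HolN (fun w => g (d.symm w)) z := hg d hd z hz h
    simp only [hn, hs_eq, ds_eq, Function.comp_def]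
    have a7 := item7 h1 hφ h2
    refine ⟨?_, a7⟩
    rw [BLAP.hess_comp (cd_nsq h1) fun _ => hφ.contDiffAt]
    ext i j
    simp only [Matrix.add_apply, Matrix.smul_apply, smul_eq_mul, real_smul]

end Pool.Agent.Lib.KQ
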