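import Pool.Agent.Lib.KQ.Blue
import Pool.Agent.Lib.KH.B_KIT
import Pool.Agent.Lib.SV.B_NINT

/-! Project kq, row ONE: one peak function. -/

open scoped Classical Topology ContDiff ComplexOrder Matrix ENNReal
open Set MeasureTheory Complex Metric Filter

noncomputable section

namespace Pool.Agent.Lib.KQ

open Pool.Agent.Lib.SV (E nsq)
open Pool.Agent.Lib.HS32
open Pool.Agent.Lib.KH (OnK SmK HoK dbv)

namespace ONE

section mea

variable {Y : Type} [MeasurableSpace Y] {ν : Measure Y}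

theorem fat {f : ℕ → Y → ℝ} {g : Y → ℝ} {R : ℕ → ℝ≥0∞} {r : ℝ≥0∞}
    (hm : ∀ j, AEMeasurable (f j) ν) (hl : ∀ᵐ x ∂ν, Tendsto (f · x) atTop (𝓝 (g x)))
    (hR : ∀ j, ∫⁻ x, ENNReal.ofReal (f j x) ∂ν ≤ R j) (h : Tendsto R atTop (𝓝 r)) :
    ∫⁻ x, ENNReal.ofReal (g x) ∂ν ≤ r := by
  refine le_trans ?_ ((lintegral_liminf_le' fun j => (hm j).ennreal_ofReal).trans
    ((liminf_le_liminf (Eventually.of_forall hR)).trans_eq h.liminf_eq))
  exact lintegral_mono_ae (hl.mono fun x hx => (ENNReal.tendsto_ofReal hx).liminf_eq.ge)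

theorem mea {κ : Y → ℝ} {F : Y → ℂ} (hκ : AEMeasurable κ ν) (hF : AEMeasurable F ν) :
    AEMeasurable (fun x => normSq (F x) * Real.exp (-κ x)) ν :=
  (continuous_normSq.measurable.comp_aemeasurable hF).mul
    (Real.measurable_exp.comp_aemeasurable hκ.neg)

theorem fatN {κ : Y → ℝ} {G : ℕ → Y → ℂ} {F : Y → ℂ} {R : ℕ → ℝ≥0∞} {r : ℝ≥0∞}
    (hκ : AEMeasurable κ ν) (hm : ∀ j, AEMeasurable (G j) ν)
    (hl : ∀ x, Tendsto (G · x) atTop (𝓝 (F x))) (hR : ∀ j, Nm ν κ (G j) ≤ R j)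
    (h : Tendsto R atTop (𝓝 r)) : Nm ν κ F ≤ r :=
  fat (fun j => mea hκ (hm j)) (Eventually.of_forall fun x =>
    ((continuous_normSq.tendsto _).comp (hl x)).mul_const _) hR h

theorem cpt {V : Submodule ℂ (Y → ℂ)} [FiniteDimensional ℂ V] {κ : Y → ℝ}
    (hκ : AEMeasurable κ ν) (hm : ∀ G ∈ V, AEMeasurable G ν)
    (inj : ∀ G ∈ V, (∀ᵐ x ∂ν, G x = 0) → G = 0) {G : ℕ → Y → ℂ} (hG : ∀ j, G j ∈ V) {R : ℝ≥0∞}
    (hR : R ≠ ⊤) (h : ∀ j, Nm ν κ (G j) ≤ R) : ∃ F ∈ V, ∃ s : ℕ → ℕ, StrictMono s ∧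
      ∀ x, Tendsto (fun j => G (s j) x) atTop (𝓝 (F x)) := by
  let b := (Module.finBasis ℂ V).equivFun
  let L : (Fin (Module.finrank ℂ V) → ℂ) →ₗ[ℂ] Y → ℂ := V.subtype ∘ₗ b.symm.toLinearMap
  have mem : ∀ a, L a ∈ V := fun a => (b.symm a).2
  have cL : Continuous L := L.continuous_of_finiteDimensional
  obtain ⟨a, ha⟩ : ∃ a : ℕ → _, ∀ j, L (a j) = G j :=
    ⟨fun j => b ⟨G j, hG j⟩, fun j => congrArg Subtype.val (b.symm_apply_apply _)⟩
  let t : ℕ → ℝ := fun j => (1 + ‖a j‖)⁻¹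
  have t0 : ∀ j, 0 < t j := fun j => by positivity
  have t1 : ∀ j, t j + ‖(t j : ℂ) • a j‖ = 1 := fun j => by
    rw [norm_smul, norm_real, Real.norm_of_nonneg (t0 j).le, ← mul_one_add]
    exact inv_mul_cancel₀ (by positivity)
  obtain ⟨⟨τ, c⟩, -, s, hs, hl⟩ := ((isCompact_Icc (a := (0 : ℝ)) (b := 1)).prod
    (isCompact_closedBall 0 1)).tendsto_subseq (x := fun j => (t j, (t j : ℂ) • a j))
    fun j => ⟨⟨(t0 j).le, by linarith [t1 j, norm_nonneg ((t j : ℂ) • a j)]⟩,
      mem_closedBall_zero_iff.2 (by linarith [t1 j, t0 j])⟩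
  have l1 : Tendsto (fun j => t (s j)) atTop (𝓝 τ) := (continuous_fst.tendsto _).comp hl
  have l2 : Tendsto (fun j => (t (s j) : ℂ) • a (s j)) atTop (𝓝 c) :=
    (continuous_snd.tendsto _).comp hl
  have e1 : τ + ‖c‖ = 1 := tendsto_nhds_unique (l1.add l2.norm)
    (tendsto_const_nhds.congr fun j => (t1 (s j)).symm)
  by_cases h0 : τ = 0
  · have k1 : Nm ν κ (L c) ≤ 0 := by
      refine fatN (G := fun j => L ((t (s j) : ℂ) • a (s j)))
        (R := fun j => ENNReal.ofReal (t (s j) ^ 2) * R) hκ (fun j => hm _ (mem _))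
        (tendsto_pi_nhds.1 ((cL.tendsto _).comp l2)) (fun j => ?_) ?_
      · refine le_trans (le_of_eq ?_) (mul_le_mul_right (h (s j)) _)
        rw [Nm, Nm, ← lintegral_const_mul' _ _ ENNReal.ofReal_ne_top]
        refine lintegral_congr fun x => ?_
        rw [map_smul, ha, Pi.smul_apply, smul_eq_mul, normSq_mul, normSq_ofReal,
          ← ENNReal.ofReal_mul (by positivity), mul_assoc, sq]
      · have := ENNReal.Tendsto.mul_const (ENNReal.tendsto_ofReal (l1.pow 2)) (Or.inr hR)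
        simpa [h0] using this
    have k2 := (lintegral_eq_zero_iff' (mea hκ (hm _ (mem c))).ennreal_ofReal).1 (le_zero_iff.1 k1)
    have k3 := inj _ (mem c) (k2.mono fun x hx => by
      have := ENNReal.ofReal_eq_zero.1 hx
      exact normSq_eq_zero.1 (le_antisymm (nonpos_of_mul_nonpos_left this (Real.exp_pos _))
        (normSq_nonneg _)))
    have k4 : c = 0 := b.symm.injective (Subtype.ext (k3.trans (map_zero L).symm))
    rw [h0, k4] at e1
    simp at e1
  · refine ⟨_, mem ((τ : ℂ)⁻¹ • c), s, hs, tendsto_pi_nhds.1 (((cL.tendsto _).comp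
      ((((continuous_ofReal.tendsto _).comp l1).inv₀ (ofReal_ne_zero.2 h0)).smul l2)).congr
      fun j => ?_)⟩
    simp only [Function.comp]
    rw [inv_smul_smul₀ (ofReal_ne_zero.2 (t0 _).ne'), ha]

end mea

theorem nql {n : ℕ} {A B : Mat n} {c : ℝ} (h : (c • A - B).PosSemidef) (v : E n) :
    nq B v ≤ c * nq A v := by
  have h1 := (Complex.nonneg_iff.1 (h.dotProduct_mulVec_nonneg v)).1
  rw [Matrix.sub_mulVec, dotProduct_sub, sub_re, Matrix.smul_mulVec, dotProduct_smul, smul_re,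
    smul_eq_mul] at h1
  exact sub_nonneg.1 h1

theorem lip {n q : ℕ} {f : E n → E q} {z : E n} (h : DifferentiableAt ℂ f z) (h0 : f z = 0) :
    ∃ L : ℝ, 1 ≤ L ∧ ∀ᶠ w in 𝓝 z, nsq (f w) ≤ L * nsq (w - z) := by
  obtain ⟨C, hC⟩ := h.isBigO_sub.bound
  refine ⟨1 + q * C ^ 2, le_add_of_nonneg_right (by positivity), hC.mono fun w hw => ?_⟩
  rw [h0, sub_zero] at hw
  have h1 := SV.nsq_nonneg (w - z)
  have h2 : ‖w - z‖ ^ 2 ≤ nsq (w - z) := by
    refine (Real.le_sqrt (norm_nonneg _) h1).1 ((pi_norm_le_iff_of_nonneg (Real.sqrt_nonneg _)).2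
      fun i => Real.le_sqrt_of_sq_le ?_)
    rw [← normSq_eq_norm_sq]
    exact Finset.single_le_sum (f := fun j => normSq ((w - z) j)) (fun j _ => normSq_nonneg _)
      (Finset.mem_univ i)
  have h3 : ‖f w‖ ^ 2 ≤ C ^ 2 * nsq (w - z) :=
    (pow_le_pow_left₀ (norm_nonneg _) hw 2).trans (by
      rw [mul_pow]; exact mul_le_mul_of_nonneg_left h2 (sq_nonneg _))
  have h4 := mul_le_mul_of_nonneg_left h3 (Nat.cast_nonneg (α := ℝ) q)
  have h5 := SV.NINT.nsq_le (f w)
  nlinarith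

theorem cut : ∃ (φ : ℝ → ℝ) (D : ℝ), ContDiff ℝ ∞ φ ∧ 0 ≤ D ∧ φ 0 = 1 ∧ ∀ t, φ t ^ 2 ≤ 1 ∧
    deriv φ t ^ 2 ≤ D ∧ (1 ≤ t → φ t = 0 ∧ deriv φ t = 0) ∧ (t ≤ 1 / 2 → deriv φ t = 0) := by
  let φ : ℝ → ℝ := fun t => Real.smoothTransition (2 - 2 * t)
  have s : ContDiff ℝ ∞ φ := Real.smoothTransition.contDiff.comp (by fun_prop)
  have a : ∀ t, 1 ≤ t → φ t = 0 ∧ deriv φ t = 0 := fun t ht => by
    have : φ t = 0 := Real.smoothTransition.zero_of_nonpos (by linarith)
    exact ⟨this, IsLocalMin.deriv_eq_zero (Eventually.of_forall fun u =>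
      this.trans_le (Real.smoothTransition.nonneg _))⟩
  have b : ∀ t, t ≤ 1 / 2 → φ t = 1 ∧ deriv φ t = 0 := fun t ht => by
    have : φ t = 1 := Real.smoothTransition.one_of_one_le (by linarith)
    exact ⟨this, IsLocalMax.deriv_eq_zero (Eventually.of_forall fun u =>
      (Real.smoothTransition.le_one _).trans_eq this.symm)⟩
  obtain ⟨D, hD⟩ := (isCompact_Icc (a := (0 : ℝ)) (b := 1)).exists_bound_of_continuousOn
    (s.continuous_deriv (by simp)).continuousOn
  refine ⟨φ, D ^ 2, s, sq_nonneg _, (b 0 (by norm_num)).1, fun t => ⟨pow_le_one₀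
    (Real.smoothTransition.nonneg _) (Real.smoothTransition.le_one _), ?_, a t, fun h => (b t h).2⟩⟩
  by_cases h : t ∈ Icc (0 : ℝ) 1
  · rw [← sq_abs]
    exact pow_le_pow_left₀ (abs_nonneg _) (hD t h) 2
  · rcases not_and_or.1 h with k | k
    · rw [(b t (by linarith [not_le.1 k])).2, zero_pow two_ne_zero]; positivity
    · rw [(a t (not_le.1 k).le).2, zero_pow two_ne_zero]; positivity

end ONE

open ONE in
theorem qONE (hKIT : St_KIT) : St_ONE := by
  intro c K c0 hK
  obtain ⟨φ, D, sφ, D0, φ0, hφ⟩ := cut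
  obtain ⟨B, hB⟩ : ∃ B, B = K * ENNReal.ofReal (c * D * Real.exp c) := ⟨_, rfl⟩
  have B0 : B ≠ ⊤ := hB ▸ ENNReal.mul_ne_top hK ENNReal.ofReal_ne_top
  refine ⟨ENNReal.ofReal 2 + ENNReal.ofReal (2 * Real.exp c) * B, by finiteness, ?_⟩
  intro n M O O' W ν V S u κ q ζ g l x₀ hn fr hq fd oW sW hζ hg sep x0 z0 sκ ⟨C₀, hC⟩ pl hN
  obtain ⟨k1, k2, k3, k4⟩ := hKIT n M W q ζ oW hζ
  obtain ⟨-, k5, k6⟩ := k4 φ g sφ hg
  generalize hW : W ∩ {x | nsq (ζ x) ≤ 1} = W₁ at hN ⊢
  have mW : ∀ x, x ∈ W₁ ↔ x ∈ W ∧ nsq (ζ x) ≤ 1 := fun x => hW ▸ Iff.rfl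
  have bd : ∀ (f : M.X → ℝ) (r : ℝ), 0 ≤ r → (∀ x ∈ O', (x ∉ W₁ → f x ≤ 0) ∧
      (x ∈ W₁ → f x ≤ r * (normSq (g x) * Real.exp (-κ x)))) →
      ∫⁻ x, ENNReal.ofReal (f x) ∂ν ≤ ENNReal.ofReal r * Nm (ν.restrict W₁) κ g := by
    intro f r r0 h
    rw [Nm, ← lintegral_const_mul' _ _ ENNReal.ofReal_ne_top]
    refine le_trans (lintegral_mono_ae (fr.ae.mono fun x hx => ?_)) (lintegral_indicator_le _ _)
    by_cases k : x ∈ W₁
    · rw [indicator_of_mem k, ← ENNReal.ofReal_mul r0]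
      exact ENNReal.ofReal_le_ofReal ((h x hx).2 k)
    · rw [ENNReal.ofReal_of_nonpos ((h x hx).1 k)]
      exact zero_le
  generalize Nm (ν.restrict W₁) κ g = N at hN bd ⊢
  have am : ∀ {F : Type} [TopologicalSpace F] [MeasurableSpace F] [BorelSpace F] {f : M.X → F},
      ContinuousOn f O' → AEMeasurable f ν := fun h =>
    Measure.restrict_eq_self_of_ae_mem fr.ae ▸ h.aemeasurable fr.op'.measurableSet
  have hc : ∀ {U : Set M.X} {F : M.X → ℂ}, HoK M U F → ContinuousOn F U := fun h =>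
    KH.KIT.cont fun e he z hz k => ((mHOL n _ z).2.2 (h e he z hz k)).1
  let Γ : M.X → ℂ := fun x => if x ∈ W then φ (nsq (ζ x)) * g x else 0
  let β : M.X → ℝ := fun x => if x ∈ W then c * (deriv φ (nsq (ζ x)) ^ 2 * normSq (g x)) else 0
  have out : ∀ x, (x ∈ W → 1 ≤ nsq (ζ x)) → Γ x = 0 ∧ β x = 0 := fun x h => by
    by_cases k : x ∈ W
    · simp only [Γ, β, if_pos k, ((hφ _).2.2.1 (h k)).1, ((hφ _).2.2.1 (h k)).2]
      simp
    · exact ⟨if_neg k, if_neg k⟩
  have ou : ∀ x ∉ W₁, Γ x = 0 ∧ β x = 0 := fun x h =>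
    out x fun k => (not_le.1 fun k' => h ((mW x).2 ⟨k, k'⟩)).le
  have off : ∀ x ∈ O', x ∉ W → ∀ᶠ y in 𝓝 x, Γ y = 0 ∧ β y = 0 := fun x hx k =>
    (sep x hx k).mono out
  have e1 : ∀ (e : M.Ch), ∀ z ∈ e.target, e.symm z ∈ W →
      Γ ∘ e.symm =ᶠ[𝓝 z] (fun x => (φ (nsq (ζ x)) : ℂ) * g x) ∘ e.symm := fun e z hz k =>
    ((e.continuousAt_symm hz).eventually (oW.mem_nhds k)).mono fun w hw => if_pos hw
  have e2 : ∀ (e : M.Ch), ∀ z ∈ e.target, e.symm z ∈ O' → e.symm z ∉ W →
      Γ ∘ e.symm =ᶠ[𝓝 z] fun _ => 0 := fun e z hz k k' =>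
    ((e.continuousAt_symm hz).eventually (off _ k k')).mono fun w hw => hw.1
  have sΓ : SmK M O' Γ := fun e he z hz k => by
    by_cases h : e.symm z ∈ W
    · exact (k5 e he z hz h).congr_of_eventuallyEq (e1 e z hz h)
    · exact contDiffAt_const.congr_of_eventuallyEq (e2 e z hz k h)
  have cβ : ContinuousOn β O' := fun x hx => by
    refine ContinuousAt.continuousWithinAt ?_
    by_cases h : x ∈ W
    · have : ContinuousOn (fun x => c * (deriv φ (nsq (ζ x)) ^ 2 * normSq (g x))) W :=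
        continuousOn_const.mul ((((sφ.continuous_deriv (by simp)).comp_continuousOn
          (KH.KIT.cont k1)).pow 2).mul (continuous_normSq.comp_continuousOn (hc hg)))
      exact (this.continuousAt (oW.mem_nhds h)).congr
        (Eventually.mono (oW.mem_nhds h) fun y hy => (if_pos hy).symm)
    · exact continuousAt_const.congr ((off x hx h).mono fun y hy => hy.2.symm)
  have β0 : ∀ x, 0 ≤ β x := fun x => by
    simp only [β]
    split_ifs
    · exact mul_nonneg c0 (mul_nonneg (sq_nonneg _) (normSq_nonneg _))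
    · exact le_rfl
  have hΓ : ∀ x ∈ W₁, normSq (Γ x) ≤ normSq (g x) := fun x hx => by
    simp only [Γ, if_pos ((mW x).1 hx).1, normSq_mul, normSq_ofReal, ← sq]
    exact mul_le_of_le_one_left (normSq_nonneg _) (hφ _).1
  have ex : ∀ j, ∃ F, HoK M O F ∧ Nm ν (fun x => κ x + l j x) (fun x => Γ x - F x) ≤ B * N := by
    intro j
    have ad : OnK M O' fun e z => M.hs (fun x => κ x + l j x) e z + S e z =
        (M.hs κ + S) e z + M.hs (l j) e z := fun e he z hz k => by
      have : M.hs (fun x => κ x + l j x) e z = M.hs κ e z + M.hs (l j) e z :=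
        (hess_congr (Eventually.of_forall fun w => ofReal_add _ _)).trans
          (hess_add (cd_ofReal (sκ e he z hz k)) (cd_ofReal (pl.sm j e he z hz k)))
      exact (congrArg (· + S e z) this).trans (add_right_comm _ _ _)
    obtain ⟨C, hl⟩ := pl.dn j
    obtain ⟨F, hF, h⟩ := hq (fun x => κ x + l j x) β Γ cβ
      ⟨fun e he z hz k => (sκ e he z hz k).add (pl.sm j e he z hz k), sΓ, fun x _ => β0 x,
        fun e he z hz k => (congrArg Matrix.PosSemidef (ad e he z hz k)).mpr (pl.pos j e he z hz k),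
        fun e he z hz k v => by
          rw [ad e he z hz k]
          by_cases h : e.symm z ∈ W
          · have a1 := (k6 e he z hz h).2 v
            have a2 : dbv (Γ ∘ e.symm) z v = _ :=
              Finset.sum_congr rfl fun i _ => congrArg _ (dzb_congr (e1 e z hz h))
            refine (congrArg normSq a2).trans_le (a1.trans ?_)
            simp only [β, if_pos h]
            by_cases h1 : nsq (ζ (e.symm z)) ≤ 1
            · have a3 := nql (pl.big j e he z hz h h1) v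
              have a4 : 0 ≤ nq (KQ.hn M ζ e z) v :=
                (Complex.nonneg_iff.1 ((k3 e he z hz h).1.dotProduct_mulVec_nonneg v)).1
              have a5 := (mul_le_of_le_one_left a4 h1).trans a3
              have a6 := mul_le_mul_of_nonneg_left a5 (mul_nonneg
                (sq_nonneg (deriv φ (nsq (ζ (e.symm z))))) (normSq_nonneg (g (e.symm z))))
              linarith
            · rw [((hφ _).2.2.1 (not_le.1 h1).le).2]
              simp
          · have a2 : dbv (Γ ∘ e.symm) z v = 0 := Finset.sum_eq_zero fun i _ => by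
              rw [dzb_congr (e2 e z hz k h), dzb_const, mul_zero]
            simp only [a2, β, if_neg h, map_zero, zero_mul, le_refl]⟩
      ⟨C₀ + c, fun x hx => by linarith [hC x hx, pl.up j x hx]⟩
      (ne_top_of_le_ne_top (ENNReal.mul_ne_top ENNReal.ofReal_ne_top hN)
        (bd _ (Real.exp C) (Real.exp_pos _).le fun x hx => ⟨fun k => by simp [(ou x k).1],
          fun k => by
            have a1 := hl x ((mW x).1 k).1 ((mW x).1 k).2
            rw [mul_left_comm, ← Real.exp_add]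
            exact mul_le_mul (hΓ x k) (Real.exp_le_exp.2 (by linarith)) (Real.exp_pos _).le
              (normSq_nonneg _)⟩))
    refine ⟨F, hF, h.trans ?_⟩
    rw [hB, mul_assoc]
    refine mul_le_mul_right (bd _ _ (by positivity) fun x hx => ⟨fun k => by simp [(ou x k).2],
      fun k => ?_⟩) _
    obtain ⟨a1, a2⟩ := (mW x).1 k
    simp only [β, if_pos a1]
    by_cases h1 : nsq (ζ x) ≤ 1 / 2
    · rw [(hφ _).2.2.2 h1]
      have := normSq_nonneg (g x)
      simp only [ne_eq, OfNat.ofNat_ne_zero, not_false_eq_true, zero_pow, zero_mul, mul_zero]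
      positivity
    · have a3 := pl.sh j x a1 (not_le.1 h1).le a2
      have a4 : Real.exp (-(κ x + l j x)) ≤ Real.exp c * Real.exp (-κ x) := by
        rw [← Real.exp_add]; exact Real.exp_le_exp.2 (by linarith)
      have a5 := mul_le_mul (mul_le_mul_of_nonneg_left (mul_le_mul_of_nonneg_right
        (hφ (nsq (ζ x))).2.1 (normSq_nonneg (g x))) c0) a4 (Real.exp_pos _).le
        (mul_nonneg c0 (mul_nonneg D0 (normSq_nonneg _)))
      exact a5.trans_eq (by ring)
  choose F hF hb using ex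
  have cκ := KH.KIT.cont sκ
  have cΓ := KH.KIT.cont sΓ
  have nF : ∀ j, Nm ν κ (F j) ≤ (ENNReal.ofReal 2 + ENNReal.ofReal (2 * Real.exp c) * B) * N := by
    intro j
    have a1 := bd (fun x => 2 * (normSq (Γ x) * Real.exp (-κ x))) 2 zero_le_two fun x hx =>
      ⟨fun k => by simp [(ou x k).1], fun k => mul_le_mul_of_nonneg_left
        (mul_le_mul_of_nonneg_right (hΓ x k) (Real.exp_pos _).le) zero_le_two⟩
    rw [add_mul, mul_assoc]
    refine le_trans ?_ (add_le_add a1 (mul_le_mul_right (hb j) _))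
    rw [Nm, Nm, ← lintegral_const_mul' _ _ ENNReal.ofReal_ne_top, ← lintegral_add_left'
      ((mea (am cκ) (am cΓ)).const_mul 2).ennreal_ofReal]
    refine lintegral_mono_ae (fr.ae.mono fun x hx => ?_)
    have a2 := normSq_nonneg (Γ x)
    have a3 := normSq_nonneg (Γ x - F j x)
    rw [← ENNReal.ofReal_mul (by positivity), ← ENNReal.ofReal_add (by positivity) (by positivity)]
    refine ENNReal.ofReal_le_ofReal ?_
    have a4 : Real.exp (-κ x) ≤ Real.exp c * Real.exp (-(κ x + l j x)) := by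
      rw [← Real.exp_add]; exact Real.exp_le_exp.2 (by linarith [pl.up j x hx])
    have a5 : normSq (F j x) ≤ 2 * normSq (Γ x) + 2 * normSq (Γ x - F j x) := by
      simp only [normSq_apply, sub_re, sub_im]
      nlinarith [sq_nonneg (2 * (Γ x).re - (F j x).re), sq_nonneg (2 * (Γ x).im - (F j x).im)]
    nlinarith [mul_le_mul_of_nonneg_right a5 (Real.exp_pos (-κ x)).le,
      mul_le_mul_of_nonneg_left a4 a3]
  choose G hG eG using fun j => fd (F j) (hF j) (ne_top_of_le_ne_top (by finiteness) (nF j))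
  have mV : ∀ G ∈ V, AEMeasurable G ν := fun G h => am ((hc (fr.hol G h)).mono fr.sub)
  have nG : ∀ j, Nm ν κ (G j) ≤ _ := fun j => le_trans (lintegral_congr_ae (fr.ae.mono
    fun x hx => by simp only [eG j x (fr.sub hx)])).le (nF j)
  have := fr.fd
  obtain ⟨P, hP, s, hs, hl⟩ := cpt (am cκ) mV fr.inj hG (by finiteness) nG
  refine ⟨P, hP, ?_, fatN (am cκ) (fun j => mV _ (hG (s j))) hl (fun j => nG _) tendsto_const_nhds⟩
  obtain ⟨e, he, hx, a, ha, U, hU, lo⟩ := fr.lo x₀ (sW x0)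
  obtain ⟨C, hp⟩ := pl.pole
  have ht := e.map_source hx
  have hi := e.left_inv hx
  have ts := e.tendsto_symm hx
  obtain ⟨L, L1, hL⟩ := lip (f := ζ ∘ e.symm) (z := e x₀) (differentiableAt_pi.2 fun i =>
    (hζ i e he _ ht (by rwa [hi])).self_of_nhds) ((congrArg ζ hi).trans z0)
  have cu : ∀ Q ∈ V, ContinuousOn (fun x => Γ x - Q x) O' := fun Q h =>
    cΓ.sub ((hc (fr.hol Q h)).mono fr.sub)
  have n0 := fr.op'.mem_nhds (sW x0)
  obtain ⟨U', u1, u2, u3⟩ := _root_.eventually_nhds_iff.1 ((hL.and (ts.eventually (hp.and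
    (((cκ.continuousAt n0).eventually (gt_mem_nhds (lt_add_one (κ x₀)))).and n0)))).and
    (Eventually.and hU (e.open_target.mem_nhds ht)))
  have cs : ContinuousOn e.symm U' := e.continuousOn_symm.mono fun w hw => (u1 w hw).2.2
  have ms : MapsTo e.symm U' O' := fun w hw => (u1 w hw).1.2.2.2
  have cn : Continuous fun w : E n => nsq (w - e x₀) := by
    unfold nsq
    exact continuous_finsetSum _ fun i _ => continuous_normSq.comp (by fun_prop)
  have := SV.stNINT n (fun w => Γ (e.symm w) - P (e.symm w)) (e x₀) U'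
    (ENNReal.ofReal (Real.exp (κ x₀ + 1 + C) * L ^ n) * (a * (B * N))) hn (u2.mem_nhds u3)
    (((cu P hP).comp cs ms).continuousAt (u2.mem_nhds u3)) (by finiteness) fun k => by
      have p0 : ∀ w : E n, 0 < nsq (w - e x₀) + 1 / (k + 1) := fun w =>
        add_pos_of_nonneg_of_pos (SV.nsq_nonneg _) (by positivity)
      refine fat (f := fun j w => ‖Γ (e.symm w) - G (s (j + k)) (e.symm w)‖ ^ 2 /
        (nsq (w - e x₀) + 1 / (k + 1)) ^ n) (fun j => ContinuousOn.aemeasurable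
          ((((cu _ (hG _)).comp cs ms).norm.pow 2).div
            ((cn.add continuous_const).pow n).continuousOn fun w _ => (pow_pos (p0 w) n).ne')
          u2.measurableSet) (Eventually.of_forall fun w => ((tendsto_const_nhds.sub
            ((hl _).comp (tendsto_add_atTop_nat k))).norm.pow 2).div_const _) (fun j => ?_)
        tendsto_const_nhds
      generalize hj : s (j + k) = i
      have ik : (k : ℝ) ≤ i := Nat.cast_le.2 (hj ▸ (Nat.le_add_left k j).trans (hs.id_le _))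
      have a1 := lo (fun x => normSq (Γ x - G i x) * Real.exp (-(κ x + l i x)))
        ((continuous_normSq.comp_continuousOn (cu _ (hG i))).mul
          (Real.continuous_exp.comp_continuousOn (cκ.add (KH.KIT.cont (pl.sm i))).neg))
      have a2 := a1.trans (mul_le_mul_right (le_trans (lintegral_congr_ae (fr.ae.mono
        fun x hx => by simp only [eG i x (fr.sub hx)])).le (hb i)) a)
      refine le_trans ?_ (mul_le_mul_right
        ((lintegral_mono_set fun w hw => (u1 w hw).2.1).trans a2) _)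
      rw [← lintegral_const_mul' _ _ ENNReal.ofReal_ne_top]
      refine setLIntegral_mono' u2.measurableSet fun w hw => ?_
      obtain ⟨⟨b1, b2, b3, -⟩, -⟩ := u1 w hw
      rw [← ENNReal.ofReal_mul (by positivity), ← normSq_eq_norm_sq, mul_left_comm, div_eq_mul_inv]
      refine ENNReal.ofReal_le_ofReal (mul_le_mul_of_nonneg_left ?_ (normSq_nonneg _))
      have b4 : nsq (ζ (e.symm w)) + 1 / (i + 1) ≤ L * (nsq (w - e x₀) + 1 / (k + 1)) := by
        rw [mul_add]
        exact add_le_add b1 ((one_div_le_one_div_of_le (by positivity) (by linarith)).trans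
          (le_mul_of_one_le_left (by positivity) L1))
      have b5 := Real.log_le_log
        (add_pos_of_nonneg_of_pos (SV.nsq_nonneg _) (by positivity)) b4
      have b6 := mul_le_mul_of_nonneg_left b5 (Nat.cast_nonneg (α := ℝ) n)
      have L0 : 0 < L := by linarith
      rw [Real.log_mul L0.ne' (p0 w).ne'] at b6
      rw [← Real.exp_log (p0 w), ← Real.exp_log L0, ← Real.exp_nat_mul, ← Real.exp_nat_mul,
        ← Real.exp_neg, ← Real.exp_add, ← Real.exp_add]
      exact Real.exp_le_exp.2 (by linarith [b2 i])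
  rw [hi, sub_eq_zero] at this
  rw [← this]
  simp only [Γ, if_pos x0, z0, nsq, Pi.zero_apply, map_zero, Finset.sum_const_zero, φ0,
    ofReal_one, one_mul]

end Pool.Agent.Lib.KQ
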