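import Pool.Agent.Lib.KQ.Blue
import Pool.Agent.Lib.HS32.EKit

/-! Project kq, row P0: the space is not zero. -/

open scoped Classical Topology ContDiff ComplexOrder Matrix ENNReal
open Set MeasureTheory Complex Metric Filter

noncomputable section

namespace Pool.Agent.Lib.KQ

open Pool.Agent.Lib.SV (E nsq nsq_nonneg)
open Pool.Agent.Lib.HS32
open Pool.Agent.Lib.KH (OnK SmK HoK)

theorem qP0 (hKIT : St_KIT) (hPO0 : St_PO0) (hONE : St_ONE) : St_P0 := by
  intro n M O O' S w u q a Z ν V K x₀ r hn hw hS hZ hF hH hK hD hu hx hr hI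
  have hZ' : HoV M O' Z := fun i e he z hz h => hZ i e he z hz (hF.sub h)
  have sl : SmK M O' fun x => Real.log (1 + nsq (Z x)) := fun e he z hz h => by
    simp only [add_comm (1 : ℝ)]
    exact (((hKIT n M O' q Z hF.op' hZ').2.2.1 e he z hz h).2.2.2.2.2 1 zero_le_one
      (add_pos_of_nonneg_of_pos (nsq_nonneg _) one_pos)).1
  have sk : SmK M O' (ka n w Z a) := fun e he z hz h =>
    (contDiffAt_const.mul (hw e he z hz h)).add (contDiffAt_const.mul (sl e he z hz h))
  obtain ⟨l, c, c0, hl⟩ := hPO0 n M O' q Z (M.hs (ka n w Z a) + S) x₀ r hF.op' hZ' hx hr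
    fun e he z hz h => by
      have c1 := ofRealCLM.contDiff.contDiffAt.comp z (hw e he z hz h)
      have c2 := ofRealCLM.contDiff.contDiffAt.comp z (sl e he z hz h)
      have : M.hs (ka n w Z a) e z = (a : ℝ) • M.hs w e z +
          ((n : ℝ) + 1) • M.hs (fun x => Real.log (1 + nsq (Z x))) e z := by
        have k := hess_add (contDiffAt_const (c := ((a : ℝ) : ℂ)).mul c1)
          (contDiffAt_const (c := (((n : ℝ) + 1 : ℝ) : ℂ)).mul c2)
        rw [hess_const_mul _ c1, hess_const_mul _ c2, coe_smul, coe_smul] at k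
        refine Eq.trans (congrArg (hess · z) (funext fun y => ?_)) k
        simp only [Mf.lc, ka, ofReal_add, ofReal_mul]
        rfl
      beta_reduce
      rw [Pi.add_apply, Pi.add_apply, this, add_right_comm, add_sub_cancel_right]
      exact hS e he z hz h
  obtain ⟨A, hA, H⟩ := hONE c K c0 hK
  have fin : Nm (ν.restrict (O' ∩ {x | nsq (((r⁻¹ : ℝ) : ℂ) • (Z x - Z x₀)) ≤ 1})) (ka n w Z a)
      (fun _ => 1) ≠ ⊤ := by
    refine ne_top_of_le_ne_top hI ((lintegral_mono fun x => ENNReal.ofReal_le_ofReal ?_).trans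
      (lintegral_mono_set fun x hx => ?_))
    · rw [map_one, one_mul, Real.exp_le_exp, ka, neg_le_neg_iff, le_add_iff_nonneg_right]
      exact mul_nonneg (by positivity) (Real.log_nonneg (le_add_of_nonneg_right (nsq_nonneg _)))
    · have := hx.2
      simp only [mem_ofPred_eq, nsq, Pi.smul_apply, smul_eq_mul, map_mul, normSq_ofReal,
        ← Finset.mul_sum] at this ⊢
      rwa [← mul_inv, inv_mul_le_iff₀ (by positivity), mul_one, ← sq] at this
  obtain ⟨F, f1, f2, f3⟩ := H n M O O' O' ν V S u _ q _ (fun _ => 1) l x₀ hn hF hH hD hF.op'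
    Subset.rfl (fun i e he z hz h => (hZ' i e he z hz h).mono fun y k =>
      (k.sub_const (Z x₀ i)).const_mul _)
    (fun _ _ _ _ _ => Eventually.of_forall fun _ => differentiableAt_const _)
    (fun x h h' => absurd h h') hx (by rw [sub_self, smul_zero]) sk hu hl fin
  exact ⟨F, f1, f2, ne_top_of_le_ne_top (ENNReal.mul_ne_top hA fin) f3⟩

end Pool.Agent.Lib.KQ
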