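import Pool.Agent.Lib.KQ.Blue

/-! Project kq, row PO0: the global poles. -/

open scoped Classical Topology ContDiff ComplexOrder Matrix ENNReal
open Set MeasureTheory Complex Metric Filter

set_option linter.unusedVariables false

noncomputable section

namespace Pool.Agent.Lib.KQ

open Pool.Agent.Lib.SV (E nsq)
open Pool.Agent.Lib.HS32
open Pool.Agent.Lib.KH (OnK SmK HoK dbv)

namespace PO0

theorem n0 {q : ℕ} (a : E q) : 0 ≤ nsq a := Finset.sum_nonneg fun _ _ => normSq_nonneg _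

theorem nsub {q : ℕ} (a b : E q) : nsq (a - b) ≤ 2 * nsq a + 2 * nsq b := by
  simp only [nsq, Finset.mul_sum, ← Finset.sum_add_distrib]
  refine Finset.sum_le_sum fun i _ => ?_
  simp only [Pi.sub_apply, normSq_apply, sub_re, sub_im]
  nlinarith [sq_nonneg ((a i).re + (b i).re), sq_nonneg ((a i).im + (b i).im)]

theorem nadd {q : ℕ} (a b : E q) : nsq a ≤ 2 * nsq (a - b) + 2 * nsq b := by
  simp only [nsq, Finset.mul_sum, ← Finset.sum_add_distrib]
  refine Finset.sum_le_sum fun i _ => ?_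
  simp only [Pi.sub_apply, normSq_apply, sub_re, sub_im]
  nlinarith [sq_nonneg ((a i).re - 2 * (b i).re), sq_nonneg ((a i).im - 2 * (b i).im)]

theorem nsm {q : ℕ} (t : ℝ) (a : E q) : nsq ((t : ℂ) • a) = t ^ 2 * nsq a := by
  simp only [nsq, Finset.mul_sum, Pi.smul_apply, smul_eq_mul, map_mul, normSq_ofReal, sq]

theorem hsl {n : ℕ} {M : Mf n} {f g : M.X → ℝ} {d : M.Ch} {z : E n} (a : ℝ)
    (hf : ContDiffAt ℝ ∞ (f ∘ d.symm) z) (hg : ContDiffAt ℝ ∞ (g ∘ d.symm) z) :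
    M.hs (fun x => a * f x - a * g x) d z = a • M.hs f d z - a • M.hs g d z := by
  have e : M.lc (fun x => a * f x - a * g x) d =
      fun w => (a : ℂ) * M.lc f d w - (a : ℂ) * M.lc g d w := by
    funext w
    simp only [Mf.lc, ofReal_sub, ofReal_mul]
  have h1 : ContDiffAt ℝ ∞ (M.lc f d) z := cd_ofReal hf
  have h2 : ContDiffAt ℝ ∞ (M.lc g d) z := cd_ofReal hg
  show hess _ z = a • hess _ z - a • hess _ z
  rw [e, hess_sub (contDiffAt_const.mul h1) (contDiffAt_const.mul h2), hess_const_mul _ h1,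
    hess_const_mul _ h2, Complex.coe_smul, Complex.coe_smul]

end PO0

theorem qPO0 (hKIT : St_KIT) : St_PO0 := by
  intro n M O q Z T x₀ r hO hZ hx₀ hr hT
  have e1 : (fun x => Real.log (1 + nsq (Z x))) = fun x => Real.log (nsq (Z x) + 1) :=
    funext fun x => by rw [add_comm]
  rw [e1] at hT
  set ζ : M.X → E q := fun x => ((r⁻¹ : ℝ) : ℂ) • (Z x - Z x₀) with hζ
  have hY : HoV M O fun x => Z x - Z x₀ := fun i d hd z hz h =>
    (hZ i d hd z hz h).mono fun w hw => hw.sub_const (Z x₀ i)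
  have hz' : HoV M O ζ := fun i d hd z hz h =>
    (hY i d hd z hz h).mono fun w hw => hw.const_mul ((r⁻¹ : ℝ) : ℂ)
  have kZ := (hKIT n M O q Z hO hZ).2.2.1
  have kY := (hKIT n M O q _ hO hY).2.2.1
  have kζ := (hKIT n M O q ζ hO hz').2.2.1
  have s0 : ∀ j : ℕ, (0 : ℝ) < 1 / (j + 1) := fun j => by positivity
  have s1 : ∀ j : ℕ, (1 : ℝ) / (j + 1) ≤ 1 := fun j =>
    (div_le_one (by positivity)).2 (le_add_of_nonneg_left j.cast_nonneg)
  have pζ : ∀ (j : ℕ) x, 0 < nsq (ζ x) + 1 / (j + 1) := fun j x =>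
    add_pos_of_nonneg_of_pos (PO0.n0 _) (s0 j)
  have pZ : ∀ x, 0 < nsq (Z x) + 1 := fun x => add_pos_of_nonneg_of_pos (PO0.n0 _) one_pos
  have A0 := PO0.n0 (Z x₀)
  set A := nsq (Z x₀) with hA
  set B := 2 * r ^ 2 + 2 * A with hB
  set D := r⁻¹ ^ 2 * (2 + 2 * A) + 1 with hD
  have B0 : 0 ≤ B := by positivity
  have D0 : 0 ≤ D := by positivity
  have bZ : ∀ x, nsq (ζ x) ≤ 1 → nsq (Z x) ≤ B := fun x h => by
    have h1 := PO0.nadd (Z x) (Z x₀)
    rw [hζ, PO0.nsm, inv_pow, inv_mul_le_iff₀ (by positivity), mul_one] at h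
    linarith
  have lZ : ∀ x, nsq (ζ x) ≤ 1 → Real.log (nsq (Z x) + 1) ≤ B := fun x h => by
    have := Real.log_le_sub_one_of_pos (pZ x)
    linarith [bZ x h]
  let l : ℕ → M.X → ℝ := fun j x =>
    n * Real.log (nsq (ζ x) + 1 / (j + 1)) - n * Real.log (nsq (Z x) + 1)
  have n0 : (0 : ℝ) ≤ n := n.cast_nonneg
  have key : ∀ j, OnK M O fun d z => (T d z + M.hs (l j) d z -
      (1 / (nsq (Z (d.symm z)) + 1) ^ 2) • hn M Z d z).PosSemidef := fun j d hd z hz h => by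
    obtain ⟨a1, a2⟩ := (kZ d hd z hz h).2.2.2.2.2 1 zero_le_one (pZ _)
    obtain ⟨b1, b2⟩ := (kζ d hd z hz h).2.2.2.2.2 _ (s0 j).le (pζ j _)
    have b3 := b2.add (Mf.psd_rsmul (kζ d hd z hz h).1
      (c := 1 / (j + 1) / (nsq (ζ (d.symm z)) + 1 / (j + 1)) ^ 2) (div_pos (s0 j) (pow_pos (pζ j _) 2)).le)
    rw [sub_add_cancel] at b3
    have e := ((hT d hd z hz h).add a2).add (Mf.psd_rsmul b3 n0)
    rw [PO0.hsl n b1 a1]
    refine (congrArg Matrix.PosSemidef ?_).mp e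
    module
  have key2 : ∀ j, OnK M O fun d z => (T d z + M.hs (l j) d z).PosSemidef := fun j d hd z hz h => by
    have e := (key j d hd z hz h).add (Mf.psd_rsmul (kZ d hd z hz h).1
      (c := 1 / (nsq (Z (d.symm z)) + 1) ^ 2) (by positivity))
    rwa [sub_add_cancel] at e
  have c1 : 0 ≤ (n : ℝ) * D := by positivity
  have c2 : 0 ≤ (n : ℝ) * (1 + B) := by positivity
  have c3 : 0 ≤ r⁻¹ ^ 2 * (B + 1) ^ 2 := by positivity
  refine ⟨l, n * D + n * (1 + B) + r⁻¹ ^ 2 * (B + 1) ^ 2, by positivity,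
    fun j d hd z hz h => ?_, key2, fun j d hd z hz h h1 => ?_, fun j x hx => ?_,
    fun j x hx h1 h2 => ?_, fun j => ⟨n * B - n * Real.log (1 / (j + 1)), fun x hx h => ?_⟩,
    0, Eventually.of_forall fun x j => ?_⟩
  · exact (contDiffAt_const.mul ((kζ d hd z hz h).2.2.2.2.2 _ (s0 j).le (pζ j _)).1).sub
      (contDiffAt_const.mul ((kZ d hd z hz h).2.2.2.2.2 1 zero_le_one (pZ _)).1)
  · set c := n * D + n * (1 + B) + r⁻¹ ^ 2 * (B + 1) ^ 2 with hc
    have e2 : hn M ζ d z = r⁻¹ ^ 2 • hn M Z d z := by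
      rw [← (kZ d hd z hz h).2.2.2.1 (Z x₀)]
      exact (kY d hd z hz h).2.2.2.2.1 r⁻¹
    have h2 : r⁻¹ ^ 2 ≤ c * (1 / (nsq (Z (d.symm z)) + 1) ^ 2) := by
      rw [mul_one_div, le_div_iff₀ (pow_pos (pZ _) 2)]
      have h3 : (nsq (Z (d.symm z)) + 1) ^ 2 ≤ (B + 1) ^ 2 :=
        pow_le_pow_left₀ (pZ _).le (by linarith [bZ _ h1]) 2
      have h4 := mul_le_mul_of_nonneg_left h3 (sq_nonneg r⁻¹)
      linarith
    have e := (Mf.psd_rsmul (key j d hd z hz h) (c := c) (by positivity)).add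
      (Mf.psd_rsmul (kZ d hd z hz h).1 (sub_nonneg.2 h2))
    rw [e2]
    refine (congrArg Matrix.PosSemidef ?_).mp e
    module
  · have h1 : nsq (ζ x) + 1 / (j + 1) ≤ D * (nsq (Z x) + 1) := by
      have h2 := mul_le_mul_of_nonneg_left (PO0.nsub (Z x) (Z x₀)) (sq_nonneg r⁻¹)
      have h3 := PO0.n0 (Z x)
      have h4 : 0 ≤ r⁻¹ ^ 2 * (A * nsq (Z x)) := by positivity
      have h5 : nsq (ζ x) = r⁻¹ ^ 2 * nsq (Z x - Z x₀) := PO0.nsm _ _
      have h6 := sq_nonneg r⁻¹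
      rw [h5, hD]
      nlinarith [s1 j]
    have h2 := Real.log_le_sub_one_of_pos (div_pos (pζ j x) (pZ x))
    rw [Real.log_div (pζ j x).ne' (pZ x).ne'] at h2
    have h3 := (div_le_iff₀ (pZ x)).2 h1
    have h4 := mul_le_mul_of_nonneg_left (show Real.log (nsq (ζ x) + 1 / (j + 1)) -
      Real.log (nsq (Z x) + 1) ≤ D by linarith) n0
    show _ - _ ≤ _
    linarith
  · have h3 := Real.one_sub_inv_le_log_of_pos (pζ j x)
    have h4 : (nsq (ζ x) + 1 / (j + 1))⁻¹ ≤ 2 := by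
      rw [inv_le_comm₀ (pζ j x) two_pos]
      linarith [s0 j]
    have h5 := mul_le_mul_of_nonneg_left (show -(1 + B) ≤ Real.log (nsq (ζ x) + 1 / (j + 1)) -
      Real.log (nsq (Z x) + 1) by linarith [lZ x h2]) n0
    show _ ≤ _ - _
    linarith
  · have h3 := Real.log_le_log (s0 j) (le_add_of_nonneg_left (PO0.n0 (ζ x)))
    have h4 := mul_le_mul_of_nonneg_left h3 n0
    have h5 := mul_le_mul_of_nonneg_left (lZ x h) n0
    show _ ≤ _ - _
    linarith
  · have h3 := mul_nonneg n0 (Real.log_nonneg (le_add_of_nonneg_left (PO0.n0 (Z x))))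
    show _ - _ ≤ _
    linarith

end Pool.Agent.Lib.KQ
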