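import Pool.Agent.Lib.KQ.Blue
import Pool.Agent.Lib.HS32.MKit

/-! Project kq: the two extension properties. -/

open scoped Classical Topology ContDiff ComplexOrder Matrix ENNReal
open Set MeasureTheory Complex Metric Filter

set_option linter.unusedVariables false

noncomputable section

namespace Pool.Agent.Lib.KQ

open Pool.Agent.Lib.SV (E nsq)
open Pool.Agent.Lib.HS32
open Pool.Agent.Lib.KH (OnK SmK HoK dbv)

namespace P12

variable {n : ℕ} {M : Mf n} {O O' : Set M.X}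

theorem hs_ka {q : ℕ} {w : M.X → ℝ} {Z : M.X → E q} (b : ℕ) {d : M.Ch} {z : E n}
    (hw : ContDiffAt ℝ ∞ (w ∘ d.symm) z)
    (hZ : ContDiffAt ℝ ∞ ((fun x => Real.log (nsq (Z x) + 1)) ∘ d.symm) z) :
    ContDiffAt ℝ ∞ (ka n w Z b ∘ d.symm) z ∧ M.hs (ka n w Z b) d z =
      (b : ℝ) • M.hs w d z + ((n : ℝ) + 1) • M.hs (fun x => Real.log (nsq (Z x) + 1)) d z := by
  have e : ka n w Z b = fun x => b * w x + ((n : ℝ) + 1) * Real.log (nsq (Z x) + 1) :=
    funext fun x => by rw [ka, add_comm 1]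
  rw [e]
  refine ⟨(contDiffAt_const.mul hw).add (contDiffAt_const.mul hZ), ?_⟩
  have a := hess_add (cd_ofReal (contDiffAt_const (c := (b : ℝ)).mul hw))
    (cd_ofReal (contDiffAt_const (c := (n : ℝ) + 1).mul hZ))
  simp only [ofReal_mul] at a
  rw [hess_const_mul _ (cd_ofReal hw), hess_const_mul _ (cd_ofReal hZ)] at a
  refine Eq.trans (congrArg (hess · z) (funext fun y => ?_)) a
  simp only [Mf.lc, ofReal_add, ofReal_mul, Function.comp]

theorem nm_le {Y : Type} [MeasurableSpace Y] {ν : Measure Y} {s : Set Y} (hs : MeasurableSet s)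
    {κ κ' : Y → ℝ} {F G : Y → ℂ} {c : ℝ} (hc : 0 ≤ c)
    (h : ∀ x ∈ s, normSq (F x) * Real.exp (-κ x) ≤ c * (normSq (G x) * Real.exp (-κ' x))) :
    Nm (ν.restrict s) κ F ≤ ENNReal.ofReal c * Nm ν κ' G := by
  rw [Nm, Nm, ← lintegral_const_mul' _ _ ENNReal.ofReal_ne_top]
  refine (setLIntegral_mono' hs fun x hx => ?_).trans (setLIntegral_le_lintegral _ _)
  rw [← ENNReal.ofReal_mul hc]
  exact ENNReal.ofReal_le_ofReal (h x hx)

theorem hok_mul {W : Set M.X} {f g : M.X → ℂ} (hf : HoK M W f) (hg : HoK M O g) (h : W ⊆ O) :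
    HoK M W fun x => f x * g x := fun e he z hz hw =>
  ((hf e he z hz hw).and (hg e he z hz (h hw))).mono fun _ h => h.1.mul h.2

end P12

open P12 in
theorem qP12 (hKIT : St_KIT) (hPOL : St_POL) (hZET : St_ZET) (hONE : St_ONE) : St_P12 := by
  intro n M O O' S ι C w c q Z hn0 hW hZ
  obtain ⟨k, k1, hk⟩ := hPOL n
  obtain ⟨a, ha⟩ := exists_nat_ge (4 * k * c)
  have c1 := hW.c0
  have c0 : 0 ≤ c := by linarith
  have k0 : 0 ≤ k := by linarith
  refine ⟨a, (a + 1) * c + k, by nlinarith, fun ν V u K hF hH hK hb => ?_⟩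
  obtain ⟨A, A1, hA⟩ := hONE k K k0 hK
  have At := ENNReal.toReal_nonneg (a := A)
  refine ⟨2 * c * (A.toReal + 1), fun x hx => ?_⟩
  obtain ⟨i, xi, xe⟩ := C.cov x hx
  obtain ⟨W, g, r, ζ, W1, W2, W3, g1, g2, z1, z2, z3, z4, z5⟩ := hZET n M O' S ι C i x hF.op' xi xe
  have WO : W ⊆ O' := W2.trans (C.sub i)
  have kz := (hKIT n M O q Z hF.op hZ).2.2.1
  have ms : MeasurableSet (W ∩ {x | nsq (ζ x) ≤ 1}) := by
    have o : IsOpen (W ∩ ζ ⁻¹' {v | 1 < nsq v}) :=
      (hKIT n M W r ζ W1 z1).2.1.isOpen_inter_preimage W1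
        (isOpen_lt continuous_const (by unfold nsq; fun_prop))
    have e : W ∩ {x | nsq (ζ x) ≤ 1} = W \ (W ∩ ζ ⁻¹' {v | 1 < nsq v}) := by
      ext y
      simp
    rw [e]
    exact W1.measurableSet.diff o.measurableSet
  have step : ∀ b ∈ Icc a (a + 1), ∀ (f G : M.X → ℂ) (κ : M.X → ℝ), HoK M W f → Nm ν κ G ≠ ⊤ →
      (∀ y ∈ W ∩ {x | nsq (ζ x) ≤ 1}, normSq (f y) * Real.exp (-ka n w Z b y) ≤
        2 * c * (normSq (G y) * Real.exp (-κ y))) → ∃ F ∈ V, F x = f x ∧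
        Nm ν (ka n w Z b) F ≤ ENNReal.ofReal (2 * c * (A.toReal + 1)) * Nm ν κ G := by
    intro b hb' f G κ hf hG h
    have b1 : (a : ℝ) ≤ b := by exact_mod_cast hb'.1
    have b2 : (b : ℝ) ≤ a + 1 := by exact_mod_cast hb'.2
    have b3 : 0 ≤ (a + 1) * c - b * c := by nlinarith
    have lg : OnK M O' fun d z =>
        ContDiffAt ℝ ∞ ((fun x => Real.log (nsq (Z x) + 1)) ∘ d.symm) z ∧
          (M.hs (fun x => Real.log (nsq (Z x) + 1)) d z).PosSemidef := fun d hd z hz ho => by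
      obtain ⟨p1, -, -, -, -, p2⟩ := kz d hd z hz (hF.sub ho)
      have t : 0 ≤ nsq (Z (d.symm z)) := Finset.sum_nonneg fun _ _ => normSq_nonneg _
      obtain ⟨p3, p4⟩ := p2 1 zero_le_one (by linarith)
      refine ⟨p3, ?_⟩
      simpa using p4.add (Mf.psd_rsmul p1 (show 0 ≤ 1 / (nsq (Z (d.symm z)) + 1) ^ 2 by positivity))
    have ks := fun d hd z hz ho => hs_ka (n := n) b (hW.sm d hd z hz ho) (lg d hd z hz ho).1
    obtain ⟨l, hl'⟩ := hk M O' W r ζ (M.hs (ka n w Z b) + ((a + 1) * c + k) • S) x hF.op' W1 WO z1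
      z3 W3 z2 (fun d hd z hz ho => by
        have := ((Mf.psd_rsmul (hW.pos d hd z hz ho) b.cast_nonneg).add
          (Mf.psd_rsmul (C.s0 d hd z hz ho) (add_nonneg b3 k0))).add
          (Mf.psd_rsmul (lg d hd z hz ho).2 (show (0 : ℝ) ≤ n + 1 by positivity))
        refine (congrArg Matrix.PosSemidef ?_).mp this
        simp only [Pi.add_apply, Pi.smul_apply, (ks d hd z hz ho).2]
        module) fun d hd z hz hw h1 => by
        have ho := WO hw
        have e4 := ((z4 _ hw).2 h1).1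
        have := (((((Mf.psd_rsmul (hW.pos d hd z hz ho) (show (0 : ℝ) ≤ b - 4 * k * c by linarith)).add
          (Mf.psd_rsmul (hW.fs i d hd z hz (W2 hw) e4) (show 0 ≤ 4 * k by positivity))).add
          (Mf.psd_rsmul (C.s0 d hd z hz ho) b3)).add
          (Mf.psd_rsmul (C.s1 i d hd z hz (W2 hw) (by linarith)) k0)).add
          (Mf.psd_rsmul (z5 d hd z hz hw h1) k0)).add
          (Mf.psd_rsmul (lg d hd z hz ho).2 (show (0 : ℝ) ≤ n + 1 by positivity))
        refine (congrArg Matrix.PosSemidef ?_).mp this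
        simp only [Pi.add_apply, Pi.smul_apply, (ks d hd z hz ho).2]
        module
    have le := nm_le (ν := ν) ms (by positivity) h
    obtain ⟨F, F1, F2, F3⟩ := hA n M O O' W ν V _ u _ r ζ f l x hn0 hF hH (hb b hb').1 W1 WO z1 hf
      z3 W3 z2 (fun d hd z hz ho => (ks d hd z hz ho).1) (hb b hb').2 hl'
      (ne_top_of_le_ne_top (ENNReal.mul_ne_top ENNReal.ofReal_ne_top hG) le)
    refine ⟨F, F1, F2, F3.trans ((mul_le_mul_right le _).trans ?_)⟩
    rw [← mul_assoc, ← ENNReal.ofReal_toReal A1, ← ENNReal.ofReal_mul At, ENNReal.toReal_ofReal At]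
    exact mul_le_mul_left (ENNReal.ofReal_le_ofReal (by nlinarith)) _
  have ex : ∀ y, Real.exp (-ka n w Z a y) = Real.exp (w y) * Real.exp (-ka n w Z (a + 1) y) :=
    fun y => by
      rw [← Real.exp_add, ka, ka]
      congr 1
      push_cast
      ring
  have cm : ∀ y ∈ W ∩ {x | nsq (ζ x) ≤ 1}, normSq (g y) ≤ 2 * c * Real.exp (w y) ∧
      Real.exp (w y) ≤ 2 * c * normSq (g y) := fun y hy => by
    obtain ⟨-, p1, p2⟩ := (z4 y hy.1).2 hy.2
    obtain ⟨p3, p4⟩ := hW.cmp i y (W2 hy.1)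
    have := Real.exp_pos (w y)
    exact ⟨by nlinarith, by nlinarith⟩
  have xm : x ∈ W ∩ {x | nsq (ζ x) ≤ 1} := ⟨W3, by simp [z2, nsq]⟩
  have up : ∀ t : ℝ, 0 ≤ t → 2 * c * t ≤ 2 * c * (A.toReal + 1) * t := fun t ht =>
    mul_le_mul_of_nonneg_right (le_mul_of_one_le_right (by positivity) (by linarith)) ht
  refine ⟨fun F hFV h => ?_, fun G hGV h => ?_⟩
  · obtain ⟨G, G1, G2, G3⟩ := step (a + 1) ⟨a.le_succ, le_rfl⟩ (fun y => g y * F y) F _
      (hok_mul g1 (hF.hol F hFV) (WO.trans hF.sub)) h fun y hy => by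
        have := mul_le_mul_of_nonneg_right (cm y hy).1
          (mul_nonneg (normSq_nonneg (F y)) (Real.exp_pos (-ka n w Z (a + 1) y)).le)
        rw [map_mul, ex]
        linarith
    refine ⟨G, G1, le_trans ?_ (up _ (normSq_nonneg _)), G3⟩
    have := mul_le_mul_of_nonneg_right (cm x xm).2 (normSq_nonneg (F x))
    rw [G2, map_mul]
    linarith
  · have iv : ∀ y ∈ W, normSq (G y) = normSq (g y) * normSq ((g y)⁻¹ * G y) := fun y hy => by
      rw [← map_mul, mul_inv_cancel_left₀ (z4 y hy).1]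
    obtain ⟨F, F1, F2, F3⟩ := step a ⟨le_rfl, a.le_succ⟩ (fun y => (g y)⁻¹ * G y) G _
      (hok_mul g2 (hF.hol G hGV) (WO.trans hF.sub)) h fun y hy => by
        have := mul_le_mul_of_nonneg_right (cm y hy).2 (mul_nonneg
          (normSq_nonneg ((g y)⁻¹ * G y)) (Real.exp_pos (-ka n w Z (a + 1) y)).le)
        rw [iv y hy.1, ex]
        linarith
    refine ⟨F, F1, le_trans ?_ (up _ (mul_nonneg (Real.exp_pos _).le (normSq_nonneg _))), F3⟩
    have := mul_le_mul_of_nonneg_right (cm x xm).1 (normSq_nonneg ((g x)⁻¹ * G x))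
    rw [iv x W3, F2]
    linarith

end Pool.Agent.Lib.KQ
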