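import Pool.Agent.Lib.KQ.Blue
import Pool.Agent.Lib.KH.B_KIT

/-! Project kq, row PK: the theorem of the block. -/

open scoped Classical Topology ContDiff ComplexOrder Matrix ENNReal
open Set MeasureTheory Complex Metric Filter

set_option linter.unusedVariables false

noncomputable section

namespace Pool.Agent.Lib.KQ

open Pool.Agent.Lib.SV (E nsq)
open Pool.Agent.Lib.HS32
open Pool.Agent.Lib.KH (OnK SmK HoK dbv)

namespace PK

variable {n : ℕ} {M : Mf n} {O : Set M.X}

theorem cont {F : M.X → ℂ} (hF : HoK M O F) : ContinuousOn F O := fun x hx => by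
  have h := (hF _ (Mf.ch_mem x) _ (Mf.ch_tgt x)
    (by rwa [Mf.ch_symm])).self_of_nhds.continuousAt
  refine ((h.comp ((M.ch x).continuousAt (Mf.mem_ch x))).congr ?_).continuousWithinAt
  filter_upwards [(M.ch x).open_source.mem_nhds (Mf.mem_ch x)] with y hy
  exact congrArg F ((M.ch x).left_inv hy)

theorem aem {ν : Measure M.X} {F : Type} [TopologicalSpace F] [MeasurableSpace F] [BorelSpace F]
    {f : M.X → F} (hO : IsOpen O) (ae : ∀ᵐ x ∂ν, x ∈ O) (hf : ContinuousOn f O) :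
    AEMeasurable f ν := by
  rw [← Measure.restrict_eq_self_of_ae_mem ae]
  exact hf.aemeasurable hO.measurableSet

theorem cka {q : ℕ} {w : M.X → ℝ} {Z : M.X → E q} (hw : SmK M O w) (hZ : HoV M O Z) (a : ℕ) :
    ContinuousOn (ka n w Z a) O := by
  have h1 : ContinuousOn (fun x => 1 + nsq (Z x)) O :=
    continuousOn_const.add (continuousOn_finsetSum _ fun i _ =>
      Complex.continuous_normSq.comp_continuousOn (cont (hZ i)))
  refine (continuousOn_const.mul (KH.KIT.cont hw)).add (continuousOn_const.mul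
    (h1.log fun x _ => ?_))
  have : 0 ≤ nsq (Z x) := Finset.sum_nonneg fun i _ => normSq_nonneg _
  positivity

end PK

theorem qPK (hP12 : St_P12) (hP0 : St_P0) (hKER : St_KER) : St_PK := by
  intro n M O O' S ι C w c q Z hn hW hZ
  obtain ⟨a, m, hm, h⟩ := hP12 n M O O' S ι C w c q Z hn hW hZ
  have hc : (0 : ℝ) ≤ a * c := mul_nonneg (Nat.cast_nonneg _) (zero_le_one.trans hW.c0)
  refine ⟨a, m, hc.trans hm, fun ν V u K hF hq hK hd ⟨x₀, hx, r, hr, hi⟩ => ?_⟩
  obtain ⟨A, hA⟩ := h ν V u K hF hq hK hd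
  have ha := hd a ⟨le_rfl, Nat.le_succ _⟩
  obtain ⟨F, hF1, hF2, hF3⟩ := hP0 n M O O' (m • S) w u q a Z ν V K x₀ r hn hW.sm
    (fun e he z hz k => by
      have h1 := (hW.pos e he z hz k).smul (Nat.cast_nonneg (α := ℝ) a)
      have h2 := (C.s0 e he z hz k).smul (sub_nonneg.2 hm)
      have e1 : (a : ℝ) • M.hs w e z + (m • S) e z =
          (a : ℝ) • (M.hs w e z + c • S e z) + (m - a * c) • S e z := by
        simp only [Pi.smul_apply]; module
      exact (congrArg Matrix.PosSemidef e1).mpr (h1.add h2)) hZ hF hq hK ha.1 ha.2 hx hr hi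
  have hZ' : HoV M O' Z := fun i e he z hz k => hZ i e he z hz (hF.sub k)
  exact hKER M.X ν V O' (ka n w Z a) (ka n w Z (a + 1)) (fun x => Real.exp (w x)) A hF.fd
    (fun G hG => ⟨PK.aem hF.op' hF.ae ((PK.cont (hF.hol G hG)).mono hF.sub), hF.inj G hG⟩)
    (PK.aem hF.op' hF.ae (PK.cka hW.sm hZ' _)) (PK.aem hF.op' hF.ae (PK.cka hW.sm hZ' _))
    (fun x => Real.exp_pos _) hA ⟨F, hF1, hF3, x₀, hx, by rw [hF2]; exact one_ne_zero⟩

end Pool.Agent.Lib.KQ
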