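import Pool.Agent.Lib.KQ.Blue

/-! Project kq, row POL: the cut poles. -/

open scoped Classical Topology ContDiff ComplexOrder Matrix
open Set Complex Filter

noncomputable section

namespace Pool.Agent.Lib.KQ

open Pool.Agent.Lib.SV (E nsq)
open Pool.Agent.Lib.HS32
open Pool.Agent.Lib.KH (OnK SmK HoK)

namespace POL

/-- The cut. -/
def ψ (t : ℝ) : ℝ := Real.smoothTransition (2 * t - 1)

theorem cψ : ContDiff ℝ ∞ ψ := Real.smoothTransition.contDiff.comp (by fun_prop)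

theorem ψ0 {t : ℝ} (h : t ≤ 1 / 2) : ψ t = 0 := Real.smoothTransition.zero_of_nonpos (by linarith)

theorem ψ1 {t : ℝ} (h : 1 ≤ t) : ψ t = 1 := Real.smoothTransition.one_of_one_le (by linarith)

/-- The correction. -/
def h (s t : ℝ) : ℝ := ψ t * Real.log (t + s)

theorem h0 (s : ℝ) {t : ℝ} (ht : t < 1 / 2) : h s =ᶠ[𝓝 t] fun _ => 0 :=
  (gt_mem_nhds ht).mono fun u hu => by rw [h, ψ0 (le_of_lt hu), zero_mul]

theorem ch {s : ℝ} (hs : 0 ≤ s) : ContDiff ℝ ∞ (h s) := contDiff_iff_contDiffAt.2 fun t => by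
  rcases lt_or_ge t (1 / 2) with ht | ht
  · exact contDiffAt_const.congr_of_eventuallyEq (h0 s ht)
  · exact cψ.contDiffAt.mul ((contDiffAt_id.add contDiffAt_const).log (by
      simp only [id]; linarith))

theorem bd : ∃ B : ℝ, 0 ≤ B ∧ ∀ s ∈ Icc (0 : ℝ) 1, ∀ t ≤ (1 : ℝ),
    deriv (h s) t ≤ B ∧ deriv (deriv (h s)) t ≤ B := by
  have c1 : ContDiff ℝ ∞ (deriv ψ) := (contDiff_infty_iff_deriv.1 cψ).2
  have c2 : ContDiff ℝ ∞ (deriv (deriv ψ)) := (contDiff_infty_iff_deriv.1 c1).2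
  have d1 : ∀ s t : ℝ, 0 < t + s →
      HasDerivAt (h s) (deriv ψ t * Real.log (t + s) + ψ t * (t + s)⁻¹) t := fun s t ht => by
    have a := ((hasDerivAt_id t).add_const s).log ht.ne'
    simp only [id, one_div] at a
    exact (cψ.differentiable (by simp) t).hasDerivAt.fun_mul a
  have d2 : ∀ s t : ℝ, 0 < t + s → deriv (deriv (h s)) t =
      deriv (deriv ψ) t * Real.log (t + s) + deriv ψ t * (t + s)⁻¹ +
        (deriv ψ t * (t + s)⁻¹ + ψ t * (-1 / (t + s) ^ 2)) := fun s t ht => by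
    have a := ((hasDerivAt_id t).add_const s).log ht.ne'
    have b := ((hasDerivAt_id t).add_const s).fun_inv ht.ne'
    simp only [id, one_div] at a b
    have e : deriv (h s) =ᶠ[𝓝 t] fun t => deriv ψ t * Real.log (t + s) + ψ t * (t + s)⁻¹ :=
      (continuousAt_const.eventually_lt (continuousAt_id.add continuousAt_const) ht).mono
        fun u hu => (d1 s u hu).deriv
    rw [e.deriv_eq]
    exact (((c1.differentiable (by simp) t).hasDerivAt.fun_mul a).fun_add
      ((cψ.differentiable (by simp) t).hasDerivAt.fun_mul b)).deriv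
  have K : IsCompact (Icc (0 : ℝ) 1 ×ˢ Icc (1 / 2 : ℝ) 1) := isCompact_Icc.prod isCompact_Icc
  have p : ∀ z ∈ Icc (0 : ℝ) 1 ×ˢ Icc (1 / 2 : ℝ) 1, 0 < z.2 + z.1 := fun z hz => by
    linarith [hz.1.1, hz.2.1]
  have a : ContinuousOn (fun z : ℝ × ℝ => z.2 + z.1) (Icc 0 1 ×ˢ Icc (1 / 2) 1) := by fun_prop
  have a1 := a.log fun z hz => (p z hz).ne'
  have a2 := a.inv₀ fun z hz => (p z hz).ne'
  have a3 := (continuousOn_const (c := (-1 : ℝ))).div (a.pow 2) fun z hz =>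
    pow_ne_zero 2 (p z hz).ne'
  have b0 := (cψ.continuous.comp (continuous_snd (X := ℝ))).continuousOn
    (s := Icc 0 1 ×ˢ Icc (1 / 2) 1)
  have b1 := (c1.continuous.comp (continuous_snd (X := ℝ))).continuousOn
    (s := Icc 0 1 ×ˢ Icc (1 / 2) 1)
  have b2 := (c2.continuous.comp (continuous_snd (X := ℝ))).continuousOn
    (s := Icc 0 1 ×ˢ Icc (1 / 2) 1)
  obtain ⟨B1, h1⟩ := K.bddAbove_image ((b1.mul a1).add (b0.mul a2))
  obtain ⟨B2, h2⟩ := K.bddAbove_image
    (((b2.mul a1).add (b1.mul a2)).add ((b1.mul a2).add (b0.mul a3)))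
  refine ⟨max 0 (max B1 B2), le_max_left _ _, fun s hs t ht => ?_⟩
  rcases lt_or_ge t (1 / 2) with k | k
  · have e := (h0 s k).deriv
    rw [e.deriv_eq, e.self_of_nhds]
    simp
  · have m : (s, t) ∈ Icc (0 : ℝ) 1 ×ˢ Icc (1 / 2 : ℝ) 1 := ⟨hs, k, ht⟩
    rw [d2 s t (p _ m), (d1 s t (p _ m)).deriv]
    exact ⟨le_max_of_le_right (le_max_of_le_left (h1 (mem_image_of_mem _ m))),
      le_max_of_le_right (le_max_of_le_right (h2 (mem_image_of_mem _ m)))⟩

theorem dd0 {n : ℕ} {u : E n → ℝ} {z : E n} (hu : ContDiffAt ℝ ∞ u z) :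
    (dd (fun w => (u w : ℂ)) (fun w => (u w : ℂ)) z).PosSemidef := by
  have := Matrix.posSemidef_vecMulVec_star_self (fun j => dz j (fun w => (u w : ℂ)) z)
  refine (congrArg Matrix.PosSemidef ?_).mp this
  ext i j
  rw [Matrix.vecMulVec_apply, Pi.star_apply, star_dz_ofReal (cd_diff (cd_ofReal hu)), dd_apply]

end POL

open POL in
theorem qPOL (hKIT : St_KIT) : St_POL := by
  intro n
  obtain ⟨B, B0, hB⟩ := bd
  have n0 : (0 : ℝ) ≤ n := n.cast_nonneg
  have nB := mul_nonneg n0 B0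
  refine ⟨2 * (n * B) + n + 1, by linarith, fun M O W q ζ T x₀ hO hW WO hζ sep h0 z0 T0 T1 => ?_⟩
  obtain ⟨k1, k2, k3, k4⟩ := hKIT n M W q ζ hW hζ
  have t0 : ∀ x, 0 ≤ nsq (ζ x) := fun x => Finset.sum_nonneg fun _ _ => normSq_nonneg _
  have ct : ContinuousOn (fun x => nsq (ζ x)) W :=
    continuousOn_finsetSum _ fun j _ =>
      continuous_normSq.comp_continuousOn ((continuous_apply j).comp_continuousOn k2)
  have s0 : ∀ j : ℕ, (0 : ℝ) < 1 / (j + 1) ∧ (1 : ℝ) / (j + 1) ≤ 1 := fun j =>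
    ⟨by positivity, (div_le_one (by positivity)).2 (by linarith [j.cast_nonneg (α := ℝ)])⟩
  set L : ℕ → M.X → ℝ := fun j x =>
    n * (Real.log (nsq (ζ x) + 1 / (j + 1)) - h (1 / (j + 1)) (nsq (ζ x))) with hL
  have L1 : ∀ j x, L j x = n * ((1 - ψ (nsq (ζ x))) * Real.log (nsq (ζ x) + 1 / (j + 1))) :=
    fun j x => by simp only [hL, h]; ring
  have p0 : ∀ t, 0 ≤ 1 - ψ t ∧ 1 - ψ t ≤ 1 := fun t =>
    ⟨sub_nonneg.2 (Real.smoothTransition.le_one _), sub_le_self _ (Real.smoothTransition.nonneg _)⟩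
  have Z : ∀ j, ∀ x ∈ O, ¬ (x ∈ W ∧ nsq (ζ x) ≤ 1) → ∀ᶠ y in 𝓝 x, W.indicator (L j) y = 0 := by
    intro j x hx hn
    have : ∀ᶠ y in 𝓝 x, y ∈ W → 1 ≤ nsq (ζ y) := by
      by_cases hw : x ∈ W
      · exact (continuousAt_const.eventually_lt (ct.continuousAt (hW.mem_nhds hw))
          (not_le.1 fun k => hn ⟨hw, k⟩)).mono fun y hy _ => hy.le
      · exact sep x hx hw
    refine this.mono fun y hy => indicator_apply_eq_zero.2 fun k => ?_
    rw [L1, ψ1 (hy k), sub_self, zero_mul, mul_zero]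
  have N : ∀ j, ∀ d : M.Ch, ∀ z ∈ d.target, d.symm z ∈ W →
      W.indicator (L j) ∘ d.symm =ᶠ[𝓝 z] L j ∘ d.symm := fun j d z hz hw =>
    ((d.continuousAt_symm hz).eventually (hW.eventually_mem hw)).mono fun w k =>
      indicator_of_mem k _
  have A : ∀ j, OnK M W fun d z => ContDiffAt ℝ ∞ (W.indicator (L j) ∘ d.symm) z ∧
      (nsq (ζ (d.symm z)) ≤ 1 →
        (T d z + M.hs (W.indicator (L j)) d z - hn M ζ d z).PosSemidef) := by
    intro j d hd z hz hw
    obtain ⟨a1, -, a3, -, -, a6⟩ := k3 d hd z hz hw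
    obtain ⟨a7, a8⟩ := a6 _ (s0 j).1.le (add_pos_of_nonneg_of_pos (t0 _) (s0 j).1)
    obtain ⟨b1, -, b3⟩ := k4 (h (1 / (j + 1))) (fun _ => 1) (ch (s0 j).1.le)
      fun _ _ _ _ _ => Eventually.of_forall fun _ => differentiableAt_const _
    have b4 := b1 d hd z hz hw
    refine ⟨(contDiffAt_const.mul (a7.sub b4)).congr_of_eventuallyEq (N j d z hz hw), fun ht => ?_⟩
    have e : M.hs (W.indicator (L j)) d z =
        (n : ℝ) • (M.hs (fun x => Real.log (nsq (ζ x) + 1 / (j + 1))) d z -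
          M.hs (fun x => h (1 / (j + 1)) (nsq (ζ x))) d z) := by
      refine Eq.trans (hess_congr ((N j d z hz hw).mono fun w k => ?_))
        ((hess_const_mul (n : ℝ) ((cd_ofReal a7).sub (cd_ofReal b4))).trans
          (congrArg _ (hess_sub (cd_ofReal a7) (cd_ofReal b4))))
      exact (congrArg ofReal k).trans (by simp only [hL, Function.comp_apply]; push_cast; rfl)
    obtain ⟨u1, u2⟩ := hB _ ⟨(s0 j).1.le, (s0 j).2⟩ _ ht
    have D0 := dd0 (k1 d hd z hz hw)
    have r := ((((T1 d hd z hz hw ht).add (Mf.psd_rsmul a8 n0)).add (Mf.psd_rsmul a3 nB)).add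
      (Mf.psd_rsmul D0 (mul_nonneg n0 (sub_nonneg.2 u2)))).add (Mf.psd_rsmul a1 (c := n * (B - deriv
        (h (1 / (j + 1))) (nsq (ζ (d.symm z)))) + n * B * (1 - nsq (ζ (d.symm z))) + n +
        n * (1 / (j + 1) / (nsq (ζ (d.symm z)) + 1 / (j + 1)) ^ 2)) (by
          have := mul_nonneg n0 (sub_nonneg.2 u1)
          have := mul_nonneg nB (sub_nonneg.2 ht)
          positivity))
    refine (congrArg Matrix.PosSemidef ?_).mp r
    rw [e, (b3 d hd z hz hw).1]
    change _ + _ + _ + _ • M.ds (fun x => nsq (ζ x)) (fun x => nsq (ζ x)) d z + _ = _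
    module
  refine ⟨fun j => W.indicator (L j), fun j d hd z hz ho => ?_, fun j d hd z hz ho => ?_,
    fun j d hd z hz hw ht => ?_, fun j x hx => ?_, fun j x hx h1 h2 => ?_,
    fun j => ⟨-(n * Real.log (1 / (j + 1))), fun x hx _ => ?_⟩, 0, ?_⟩
  · by_cases hw : d.symm z ∈ W
    · exact (A j d hd z hz hw).1
    · exact contDiffAt_const.congr_of_eventuallyEq
        ((d.continuousAt_symm hz).eventually (Z j _ ho fun k => hw k.1))
  · by_cases hw : d.symm z ∈ W ∧ nsq (ζ (d.symm z)) ≤ 1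
    · simpa using ((A j d hd z hz hw.1).2 hw.2).add (k3 d hd z hz hw.1).1
    · have e : M.hs (W.indicator (L j)) d z = 0 := (hess_congr
        (((d.continuousAt_symm hz).eventually (Z j _ ho hw)).mono fun w k =>
          congrArg ofReal k)).trans (hess_const _)
      beta_reduce
      rw [e, add_zero]
      exact T0 d hd z hz ho
  · have r := (Mf.psd_rsmul ((A j d hd z hz hw).2 ht) (c := 2 * (n * B) + n + 1) (by linarith)).add
      (Mf.psd_rsmul (k3 d hd z hz hw).1 (c := 2 * (n * B) + n) (by linarith))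
    refine (congrArg Matrix.PosSemidef ?_).mp r
    module
  · by_cases hw : x ∈ W ∧ nsq (ζ x) ≤ 1
    · rw [indicator_of_mem hw.1, L1]
      have a := Real.log_le_sub_one_of_pos (add_pos_of_nonneg_of_pos (t0 x) (s0 j).1)
      have b : (1 - ψ (nsq (ζ x))) * Real.log (nsq (ζ x) + 1 / (j + 1)) ≤ 1 := by
        nlinarith [p0 (nsq (ζ x)), (s0 j).2, hw.2]
      nlinarith
    · rw [(Z j x hx hw).self_of_nhds]
      linarith
  · rw [indicator_of_mem hx, L1]
    have a := Real.one_sub_inv_le_log_of_pos (add_pos_of_nonneg_of_pos (t0 x) (s0 j).1)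
    have c : (nsq (ζ x) + 1 / (j + 1))⁻¹ ≤ 2 :=
      inv_le_of_inv_le₀ two_pos (by linarith [(s0 j).1])
    have b : -1 ≤ (1 - ψ (nsq (ζ x))) * Real.log (nsq (ζ x) + 1 / (j + 1)) := by
      nlinarith [p0 (nsq (ζ x))]
    nlinarith
  · rw [indicator_of_mem hx, L1, neg_neg]
    have a := Real.log_le_log (s0 j).1 (le_add_of_nonneg_left (t0 x))
    have c := Real.log_nonpos (s0 j).1.le (s0 j).2
    refine mul_le_mul_of_nonneg_left ?_ n0
    nlinarith [p0 (nsq (ζ x))]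
  · have e : nsq (ζ x₀) < 1 / 2 := by simp [z0, nsq]
    filter_upwards [hW.eventually_mem h0,
      (ct.continuousAt (hW.mem_nhds h0)).eventually_lt continuousAt_const e] with x a b j
    rw [indicator_of_mem a, L1, ψ0 b.le, sub_zero, one_mul, add_zero]

end Pool.Agent.Lib.KQ
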