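import Pool.Agent.Lib.KQ.Blue

/-! Project kq, row WT: the patched weight. -/

open scoped Classical Topology ContDiff ComplexOrder Matrix ENNReal
open Set MeasureTheory Complex Metric Filter

noncomputable section

namespace Pool.Agent.Lib.KQ

open Pool.Agent.Lib.SV (E nsq)
open Pool.Agent.Lib.HS32
open Pool.Agent.Lib.KH (OnK SmK HoK dbv)

namespace WT

variable {n : ℕ} {u w : E n → ℝ} {z : E n}

theorem nq0 {T : Mat n} (h : T.PosSemidef) (v : E n) : 0 ≤ nq T v :=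
  (Complex.le_def.1 (h.dotProduct_mulVec_nonneg v)).1

theorem nq_add (S T : Mat n) (v : E n) : nq (S + T) v = nq S v + nq T v := by
  simp only [nq, Matrix.add_mulVec, dotProduct_add, add_re]

theorem nq_sub (S T : Mat n) (v : E n) : nq (S - T) v = nq S v - nq T v := by
  simp only [nq, Matrix.sub_mulVec, dotProduct_sub, sub_re]

theorem nq_sm (a : ℝ) (T : Mat n) (v : E n) : nq (a • T) v = a * nq T v := by
  simp only [nq, Matrix.smul_mulVec, dotProduct_smul, smul_re, smul_eq_mul]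

theorem psd {T : Mat n} (h : T.IsHermitian) (k : ∀ v, 0 ≤ nq T v) : T.PosSemidef :=
  .of_dotProduct_mulVec_nonneg h fun v =>
    Complex.nonneg_iff.2 ⟨k v, (h.im_star_dotProduct_mulVec_self v).symm⟩

theorem herm_sm (a : ℝ) {T : Mat n} (h : T.IsHermitian) : (a • T).IsHermitian := by
  rw [Matrix.IsHermitian, Matrix.conjTranspose_smul, h.eq, star_trivial]

theorem nsq0 {q : ℕ} (v : E q) : 0 ≤ nsq v := Finset.sum_nonneg fun _ _ => normSq_nonneg _

theorem nsq_pos {q : ℕ} {v : E q} (h : v ≠ 0) : 0 < nsq v := by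
  obtain ⟨i, hi⟩ := Function.ne_iff.1 h
  exact (normSq_pos.2 hi).trans_le
    (Finset.single_le_sum (f := fun i => normSq (v i)) (fun _ _ => normSq_nonneg _)
      (Finset.mem_univ i))

/-- The Levi form. -/
def L (u : E n → ℝ) (z v : E n) : ℝ := nq (hess (fun x => (u x : ℂ)) z) v

theorem L_add (hu : ContDiffAt ℝ ∞ u z) (hw : ContDiffAt ℝ ∞ w z) (v : E n) :
    L (fun x => u x + w x) z v = L u z v + L w z v := by
  simp only [L, ofReal_add]
  rw [hess_add (cd_ofReal hu) (cd_ofReal hw), nq_add]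

theorem L_sub (hu : ContDiffAt ℝ ∞ u z) (hw : ContDiffAt ℝ ∞ w z) (v : E n) :
    L (fun x => u x - w x) z v = L u z v - L w z v := by
  simp only [L, ofReal_sub]
  rw [hess_sub (cd_ofReal hu) (cd_ofReal hw), nq_sub]

theorem L_mul (hu : ContDiffAt ℝ ∞ u z) (c : ℝ) (v : E n) :
    L (fun x => c * u x) z v = c * L u z v := by
  simp only [L, ofReal_mul]
  rw [hess_const_mul _ (cd_ofReal hu), ← nq_sm, Complex.coe_smul]

theorem L_const (c : ℝ) (v : E n) : L (fun _ => c) z v = 0 := by simp [L, nq]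

theorem L_sum {κ : Type} {s : Finset κ} {a : κ → E n → ℝ} (h : ∀ i, ContDiffAt ℝ ∞ (a i) z)
    (v : E n) : L (fun x => ∑ i ∈ s, a i x) z v = ∑ i ∈ s, L (a i) z v := by
  induction s using Finset.induction_on with
  | empty => simpa using L_const 0 v
  | insert i s hi ih =>
    simp only [Finset.sum_insert hi]
    rw [L_add (h i) (ContDiffAt.sum fun j _ => h j), ih]

theorem L_le (hu : ContDiffAt ℝ ∞ u z) (hw : ContDiffAt ℝ ∞ w z) (e : u z = w z)
    (h : ∀ᶠ y in 𝓝 z, u y ≤ w y) (v : E n) : L u z v ≤ L w z v := by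
  have k := nq0 (mMAXE n (fun y => u y - w y) z (hu.sub hw) (h.mono fun y hy => by
    simp only [e, sub_self]
    exact sub_nonpos.2 hy)).1 v
  rw [← zero_sub, nq_sub] at k
  have k' := L_sub hu hw v
  rw [L] at k'
  have : nq (0 : Mat n) v = 0 := by simp [nq]
  linarith

theorem dd0 (hu : ContDiffAt ℝ ∞ u z) :
    (dd (fun x => (u x : ℂ)) (fun x => (u x : ℂ)) z).PosSemidef := by
  have e : dd (fun x => (u x : ℂ)) (fun x => (u x : ℂ)) z = Matrix.vecMulVec
      (star fun j => dz j (fun x => (u x : ℂ)) z) fun j => dz j (fun x => (u x : ℂ)) z := by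
    ext i j
    rw [dd_apply, ← star_dz_ofReal (cd_diff (cd_ofReal hu))]
    rfl
  rw [e]
  exact Matrix.posSemidef_vecMulVec_star_self _

/-- The logarithm of a sum. -/
theorem lse {ι : Type} [Fintype ι] {a c : ι → E n → ℝ} (ha : ∀ i, ContDiffAt ℝ ∞ (a i) z)
    (hc : ∀ i, ContDiffAt ℝ ∞ (c i) z) (c0 : ∀ i, c i z = 0) (a0 : ∀ i, 0 ≤ a i z)
    (hP : 0 < ∑ i, a i z) (h : ∀ i, ∀ᶠ y in 𝓝 z, a i z * Real.exp (c i y) ≤ a i y) (v : E n) :
    ∑ i, a i z * L (c i) z v ≤ (∑ i, a i z) * L (fun y => Real.log (∑ i, a i y)) z v := by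
  have s1 : ContDiffAt ℝ ∞ (fun y => ∑ i, a i z / (∑ i, a i z) * c i y) z :=
    ContDiffAt.sum fun i _ => contDiffAt_const.mul (hc i)
  have k := L_le (contDiffAt_const (c := Real.log (∑ i, a i z)).add s1)
    ((ContDiffAt.sum fun i _ => ha i).log hP.ne') (by simp [c0]) ?_ v
  · rw [L_add contDiffAt_const s1, L_const, zero_add,
      L_sum fun i => contDiffAt_const.mul (hc i)] at k
    refine le_of_eq_of_le ?_ (mul_le_mul_of_nonneg_left k hP.le)
    rw [Finset.mul_sum]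
    refine Finset.sum_congr rfl fun i _ => ?_
    rw [L_mul (hc i)]
    field_simp
  filter_upwards [eventually_all.2 h] with y hy
  have j := convexOn_exp.map_sum_le (t := Finset.univ) (w := fun i => a i z / ∑ i, a i z)
    (p := fun i => c i y) (fun i _ => div_nonneg (a0 i) hP.le)
    (by rw [← Finset.sum_div, div_self hP.ne']) fun _ _ => mem_univ _
  simp only [smul_eq_mul] at j
  refine (Real.le_log_iff_exp_le ?_).2 ?_
  · obtain ⟨i, -, hi⟩ := Finset.exists_lt_of_sum_lt (s := Finset.univ) (f := fun _ => (0 : ℝ))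
      (g := fun i => a i z) (by simpa using hP)
    exact Finset.sum_pos' (fun i _ => (mul_nonneg (a0 i) (Real.exp_pos _).le).trans (hy i))
      ⟨i, Finset.mem_univ i, (mul_pos hi (Real.exp_pos _)).trans_le (hy i)⟩
  rw [Real.exp_add, Real.exp_log hP]
  refine (mul_le_mul_of_nonneg_left j hP.le).trans ?_
  rw [Finset.mul_sum]
  refine Finset.sum_le_sum fun i _ => le_of_eq_of_le ?_ (hy i)
  field_simp

theorem bnd {θ : ℝ → ℝ} (h : ContDiff ℝ ∞ θ) : ∃ A : ℝ, 0 ≤ A ∧ ∀ s a b : ℝ, 0 ≤ s → s ≤ 9 →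
    0 ≤ a → 0 ≤ b → b ≤ s * a → |deriv θ s * a + deriv (deriv θ) s * b| ≤ A * a := by
  have h1 : ContDiff ℝ ∞ (deriv θ) := (contDiff_infty_iff_deriv.1 h).2
  obtain ⟨B, hB⟩ := (isCompact_Icc (a := (0 : ℝ)) (b := 9)).exists_bound_of_continuousOn
    h1.continuous.continuousOn
  obtain ⟨C, hC⟩ := (isCompact_Icc (a := (0 : ℝ)) (b := 9)).exists_bound_of_continuousOn
    (contDiff_infty_iff_deriv.1 h1).2.continuous.continuousOn
  have B0 : 0 ≤ B := (norm_nonneg _).trans (hB 0 (by norm_num))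
  have C0 : 0 ≤ C := (norm_nonneg _).trans (hC 0 (by norm_num))
  refine ⟨B + C * 9, by positivity, fun s a b s0 s9 a0 b0 hb => (abs_add_le _ _).trans ?_⟩
  rw [abs_mul, abs_mul, abs_of_nonneg a0, abs_of_nonneg b0, add_mul, mul_assoc]
  exact add_le_add (mul_le_mul_of_nonneg_right (hB s ⟨s0, s9⟩) a0)
    (mul_le_mul (hC s ⟨s0, s9⟩) (hb.trans (mul_le_mul_of_nonneg_right s9 a0)) b0 C0)

/-- The cut-off function. -/
def ψ (s : ℝ) : ℝ := Real.smoothTransition ((9 - s) / 5)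

theorem ψ_cd : ContDiff ℝ ∞ ψ :=
  Real.smoothTransition.contDiff.comp ((contDiff_const.sub contDiff_id).div_const _)

theorem ψ0 (s : ℝ) : 0 ≤ ψ s := Real.smoothTransition.nonneg _

theorem ψ1 (s : ℝ) : ψ s ≤ 1 := Real.smoothTransition.le_one _

theorem ψ_lo {s : ℝ} (h : s ≤ 4) : ψ s = 1 := Real.smoothTransition.one_of_one_le (by linarith)

theorem ψ_hi {s : ℝ} (h : 9 ≤ s) : ψ s = 0 := Real.smoothTransition.zero_of_nonpos (by linarith)

theorem touch {p r N N' : ℝ} (hp : 0 < p) (hr : p / 2 < r) (hN : 0 < N) (hN' : 0 < N') :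
    p ^ 2 * N * Real.exp (Real.log N' + 10 / p * r - 4 / p ^ 2 * r ^ 2 - (Real.log N + 6)) ≤
      r ^ 2 * N' := by
  obtain ⟨t, rfl⟩ : ∃ t, r = p * t := ⟨r / p, by field_simp⟩
  have t2 : 1 / 2 < t := by nlinarith
  have t0 : 0 < t := by linarith
  have k : 5 * t - 2 * t ^ 2 - 3 ≤ Real.log t := by
    refine le_trans ?_ (Real.one_sub_inv_le_log_of_pos t0)
    rw [← mul_le_mul_iff_right₀ t0, mul_sub t 1, mul_inv_cancel₀ t0.ne']
    nlinarith [mul_nonneg (sq_nonneg (t - 1)) (sub_pos.2 t2).le]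
  have e : Real.log N' + 10 / p * (p * t) - 4 / p ^ 2 * (p * t) ^ 2 - (Real.log N + 6) =
      Real.log N' - Real.log N + 2 * (5 * t - 2 * t ^ 2 - 3) := by
    field_simp
    ring
  have k2 : Real.exp (2 * (5 * t - 2 * t ^ 2 - 3)) ≤ t ^ 2 := by
    refine (Real.le_log_iff_exp_le (pow_pos t0 2)).1 ?_
    rw [Real.log_pow, Nat.cast_ofNat]
    linarith
  rw [e, Real.exp_add, Real.exp_sub, Real.exp_log hN, Real.exp_log hN']
  calc _ = p ^ 2 * N' * Real.exp (2 * (5 * t - 2 * t ^ 2 - 3)) := by field_simp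
    _ ≤ p ^ 2 * N' * t ^ 2 := mul_le_mul_of_nonneg_left k2 (by positivity)
    _ = _ := by ring

variable {M : Mf n} {O : Set M.X} {S : M.Fam (Mat n)} {ι : Type} (C : Cel M O S ι)

/-- The terms of the sum. -/
def a (i : ι) (x : M.X) : ℝ := if x ∈ C.V i then ψ (nsq (C.e i x)) ^ 2 * nsq (C.F i x) else 0

theorem a0 (i : ι) (x : M.X) : 0 ≤ a C i x := by
  unfold a
  split_ifs
  · exact mul_nonneg (sq_nonneg _) (nsq0 _)
  · rfl

theorem a_le {i : ι} {x : M.X} (h : x ∈ C.V i) : a C i x ≤ nsq (C.F i x) := by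
  rw [a, if_pos h]
  exact mul_le_of_le_one_left (nsq0 _) (pow_le_one₀ (ψ0 _) (ψ1 _))

theorem a_eq {i : ι} {x : M.X} (h : x ∈ C.V i) (k : nsq (C.e i x) ≤ 4) :
    a C i x = nsq (C.F i x) := by rw [a, if_pos h, ψ_lo k, one_pow, one_mul]

theorem ev {i : ι} {d : M.Ch} (hz : z ∈ d.target) (h : d.symm z ∈ C.V i) :
    ∀ᶠ y in 𝓝 z, d.symm y ∈ C.V i := (d.continuousAt_symm hz).eventually ((C.op i).mem_nhds h)

theorem one (W : Set M.X) : HoK M W fun _ => 1 :=
  fun _ _ _ _ _ => Eventually.of_forall fun _ => differentiableAt_const _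

theorem a_sm (hK : St_KIT) (i : ι) : SmK M O (a C i) := fun d hd z hz hx => by
  by_cases h : d.symm z ∈ C.V i
  · refine (((((hK n M _ _ _ (C.op i) (C.he i)).2.2.2 ψ _ ψ_cd (one _)).1 d hd z hz h).pow 2).mul
      ((hK n M _ _ _ (C.op i) (C.hF i)).1 d hd z hz h)).congr_of_eventuallyEq ?_
    filter_upwards [ev C hz h] with y hy
    exact if_pos hy
  · refine (contDiffAt_const (c := (0 : ℝ))).congr_of_eventuallyEq ?_
    filter_upwards [(d.continuousAt_symm hz).eventually (C.sep i _ hx h)] with y hy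
    change a C i (d.symm y) = 0
    unfold a
    split_ifs with k
    · rw [ψ_hi (by linarith [hy k]), zero_pow two_ne_zero, zero_mul]
    · rfl

theorem hl0 (hK : St_KIT) (i : ι) : OnK M (C.V i) fun d z =>
    ContDiffAt ℝ ∞ (fun y => Real.log (nsq (C.F i (d.symm y)))) z ∧
      (hl M (C.F i) d z).PosSemidef := fun d hd z hz h => by
  have k := ((hK n M _ _ _ (C.op i) (C.hF i)).2.2.1 d hd z hz h).2.2.2.2.2 0 le_rfl
    (by rw [add_zero]; exact nsq_pos (C.ne i _ h))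
  simp only [add_zero, zero_div, zero_smul, sub_zero] at k
  exact k

theorem cut (hK : St_KIT) {θ : ℝ → ℝ} (hθ : ContDiff ℝ ∞ θ) : ∃ A : ℝ, 0 ≤ A ∧ ∀ i,
    OnK M (C.V i) fun d z => ContDiffAt ℝ ∞ (fun y => θ (nsq (C.e i (d.symm y)))) z ∧
      (nsq (C.e i (d.symm z)) ≤ 9 → ∀ v,
        |L (fun y => θ (nsq (C.e i (d.symm y)))) z v| ≤ A * nq (S d z) v) := by
  obtain ⟨A, A0, hA⟩ := bnd hθ
  refine ⟨A, A0, fun i d hd z hz h => ?_⟩
  obtain ⟨k1, -, k2, k3⟩ := hK n M _ _ _ (C.op i) (C.he i)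
  obtain ⟨k4, -, k5⟩ := k3 θ _ hθ (one _)
  obtain ⟨j1, -, j2, -⟩ := k2 d hd z hz h
  refine ⟨k4 d hd z hz h, fun h9 v => ?_⟩
  have e := congrArg (nq · v) (k5 d hd z hz h).1
  simp only [nq_add, nq_sm] at e
  have b1 := nq0 j2 v
  have b2 := nq0 (C.s1 i d hd z hz h h9) v
  rw [nq_sub] at b1 b2
  rw [nq_sm] at b1
  refine (le_of_eq_of_le (congrArg _ e) (hA _ _ _ (nsq0 _) h9 (nq0 j1 v)
    (nq0 (dd0 (k1 d hd z hz h)) v) (sub_nonneg.1 b1))).trans ?_
  exact mul_le_mul_of_nonneg_left (sub_nonneg.1 b2) A0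

theorem loc (hK : St_KIT) : ∃ A : ℝ, 0 ≤ A ∧ ∀ i, OnK M O fun d z => ∃ c : E n → ℝ,
    ContDiffAt ℝ ∞ c z ∧ c z = 0 ∧
    (∀ᶠ y in 𝓝 z, a C i (d.symm z) * Real.exp (c y) ≤ a C i (d.symm y)) ∧ ∀ v (B : ℝ), 0 ≤ B →
      (d.symm z ∈ C.V i → nsq (C.F i (d.symm z)) ≤ B) →
      a C i (d.symm z) * nq (hl M (C.F i) d z) v - A * B * nq (S d z) v ≤
        a C i (d.symm z) * L c z v := by
  obtain ⟨A, A0, hA⟩ := cut C hK ψ_cd
  obtain ⟨A', A0', hA'⟩ := cut C hK (ψ_cd.pow 2)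
  refine ⟨10 * A + 4 * A', by positivity, fun i d hd z hz hx => ?_⟩
  have s0 := fun v => nq0 (C.s0 d hd z hz hx) v
  rcases (a0 C i (d.symm z)).eq_or_lt with h0 | h0
  · refine ⟨fun _ => 0, contDiffAt_const, rfl, Eventually.of_forall fun y => ?_, fun v B B0 _ => ?_⟩
    · rw [← h0, zero_mul]
      exact a0 C i _
    · have := s0 v
      rw [← h0, zero_mul, zero_mul, zero_sub, neg_nonpos]
      positivity
  have h : d.symm z ∈ C.V i := by
    by_contra k
    rw [a, if_neg k] at h0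
    exact h0.false
  have N0 := nsq_pos (C.ne i _ h)
  have ae : a C i (d.symm z) = ψ (nsq (C.e i (d.symm z))) ^ 2 * nsq (C.F i (d.symm z)) := if_pos h
  beta_reduce
  rw [ae] at h0 ⊢
  have p0 : 0 < ψ (nsq (C.e i (d.symm z))) := (ψ0 _).lt_of_ne fun k => by
    rw [← k, zero_pow two_ne_zero, zero_mul] at h0
    exact h0.false
  have h9 : nsq (C.e i (d.symm z)) ≤ 9 := by
    by_contra! k
    exact p0.ne' (ψ_hi k.le)
  obtain ⟨l1, -⟩ := hl0 C hK i d hd z hz h
  obtain ⟨m1, m2⟩ := hA i d hd z hz h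
  obtain ⟨m3, m4⟩ := hA' i d hd z hz h
  have p1 := ψ1 (nsq (C.e i (d.symm z)))
  have ea : ∀ᶠ y in 𝓝 z, ψ (nsq (C.e i (d.symm z))) / 2 < ψ (nsq (C.e i (d.symm y))) :=
    m1.continuousAt.eventually (lt_mem_nhds (half_lt_self p0))
  have ez : ∀ p : ℝ, ψ (nsq (C.e i (d.symm z))) = p → Real.log (nsq (C.F i (d.symm z))) +
      10 / p * ψ (nsq (C.e i (d.symm z))) - 4 / p ^ 2 * ψ (nsq (C.e i (d.symm z))) ^ 2 -
      (Real.log (nsq (C.F i (d.symm z))) + 6) = 0 := fun p e => by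
    rw [e] at p0 ⊢
    field_simp
    ring
  generalize e : ψ (nsq (C.e i (d.symm z))) = p at p0 p1 ea ⊢
  have c1 := l1.add (contDiffAt_const (c := 10 / p).mul m1)
  have c2 := c1.sub (contDiffAt_const (c := 4 / p ^ 2).mul m3)
  refine ⟨fun y => Real.log (nsq (C.F i (d.symm y))) + 10 / p * ψ (nsq (C.e i (d.symm y))) -
    4 / p ^ 2 * ψ (nsq (C.e i (d.symm y))) ^ 2 - (Real.log (nsq (C.F i (d.symm z))) + 6),
    c2.sub contDiffAt_const, ez p e, ?_, fun v B B0 hB => ?_⟩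
  · filter_upwards [ev C hz h, ea] with y hy k
    rw [a, if_pos hy]
    exact touch p0 k N0 (nsq_pos (C.ne i _ hy))
  rw [L_sub c2 contDiffAt_const, L_const, L_sub c1 (contDiffAt_const.mul m3),
    L_add l1 (contDiffAt_const.mul m1), L_mul m1, L_mul m3]
  have b1 := (abs_le.1 (m2 h9 v)).1
  have b2 := (abs_le.1 (m4 h9 v)).2
  change _ ≤ _ * (nq (hl M (C.F i) d z) v + _ - _ - _)
  have s1 := s0 v
  have hB' := hB h
  generalize L (fun y => ψ (nsq (C.e i (d.symm y)))) z v = X at b1 ⊢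
  generalize L (fun y => ψ (nsq (C.e i (d.symm y))) ^ 2) z v = Y at b2 ⊢
  generalize nq (S d z) v = s at s1 b1 b2 ⊢
  generalize nsq (C.F i (d.symm z)) = N at N0 hB' ⊢
  have e1 : p ^ 2 * N * (nq (hl M (C.F i) d z) v + 10 / p * X - 4 / p ^ 2 * Y - 0) =
      p ^ 2 * N * nq (hl M (C.F i) d z) v + N * (10 * (p * X) - 4 * Y) := by
    field_simp
    ring
  have b3 : -(A * s) ≤ p * X := by nlinarith [mul_nonneg A0 s1]
  have b4 : -((10 * A + 4 * A') * s) ≤ 10 * (p * X) - 4 * Y := by linarith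
  have b5 : 0 ≤ (10 * A + 4 * A') * s := by positivity
  rw [e1]
  nlinarith [mul_le_mul_of_nonneg_left b4 N0.le, mul_le_mul_of_nonneg_right hB' b5]

end WT

open WT in
theorem qWT (hK : St_KIT) : St_WT := by
  intro n M O S ι _ C _
  obtain ⟨A, A0, hA⟩ := loc C hK
  obtain ⟨b, hb⟩ := C.cmp
  have hb' : ∀ i j, ∀ x ∈ C.V i, x ∈ C.V j → nsq (C.F i x) ≤ |b| * nsq (C.F j x) :=
    fun i j x h h' => (hb i j x h h').trans (mul_le_mul_of_nonneg_right (le_abs_self b) (nsq0 _))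
  have lo : ∀ x ∈ O, 0 < ∑ i, a C i x ∧ ∀ i, x ∈ C.V i → nsq (C.F i x) ≤ |b| * ∑ i, a C i x :=
    fun x hx => by
      obtain ⟨j, h1, h2⟩ := C.cov x hx
      have k : nsq (C.F j x) ≤ ∑ i, a C i x := a_eq C h1 (by linarith) ▸
        Finset.single_le_sum (f := fun i => a C i x) (fun i _ => a0 C i x) (Finset.mem_univ j)
      exact ⟨(nsq_pos (C.ne j x h1)).trans_le k, fun i hi =>
        (hb' i j x hi h1).trans (mul_le_mul_of_nonneg_left k (abs_nonneg b))⟩
  have up : ∀ i, ∀ x ∈ C.V i, ∑ j, a C j x ≤ Fintype.card ι * |b| * nsq (C.F i x) := fun i x h => by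
    rw [mul_assoc, ← nsmul_eq_mul, ← Finset.card_univ]
    refine Finset.sum_le_card_nsmul _ _ _ fun j _ => ?_
    by_cases k : x ∈ C.V j
    · exact (a_le C k).trans (hb' j i x k h)
    · rw [a, if_neg k]
      exact mul_nonneg (abs_nonneg b) (nsq0 _)
  obtain ⟨c, c1, c2, c3, c4⟩ : ∃ c : ℝ, 1 ≤ c ∧ |b| ≤ c ∧ Fintype.card ι * |b| ≤ c ∧
      Fintype.card ι * (A * |b|) ≤ c := by
    have u1 := abs_nonneg b
    have u2 : 0 ≤ Fintype.card ι * |b| := by positivity
    have u3 : 0 ≤ Fintype.card ι * (A * |b|) := by positivity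
    exact ⟨1 + |b| + Fintype.card ι * |b| + Fintype.card ι * (A * |b|), by linarith, by linarith,
      by linarith, by linarith⟩
  have sm : SmK M O fun x => Real.log (∑ i, a C i x) := fun d hd z hz hx =>
    (ContDiffAt.sum fun i _ => a_sm C hK i d hd z hz hx).log (lo _ hx).1.ne'
  have t0 : ∀ i, OnK M O fun d z => ∀ v, 0 ≤ a C i (d.symm z) * nq (hl M (C.F i) d z) v :=
    fun i d hd z hz _ v => by
      by_cases k : d.symm z ∈ C.V i
      · exact mul_nonneg (a0 C i _) (nq0 (hl0 C hK i d hd z hz k).2 v)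
      · rw [a, if_neg k, zero_mul]
  have key : OnK M O fun d z => ∀ v, ∑ i, a C i (d.symm z) * nq (hl M (C.F i) d z) v ≤
      (∑ i, a C i (d.symm z)) *
        nq (M.hs (fun x => Real.log (∑ i, a C i x)) d z + c • S d z) v := fun d hd z hz hx v => by
    choose g g1 g2 g3 g4 using fun i => hA i d hd z hz hx
    have P0 := (lo _ hx).1
    have k := (Finset.sum_le_sum fun i _ => g4 i v _ (mul_nonneg (abs_nonneg b) P0.le)
      ((lo _ hx).2 i)).trans (lse (a := fun i y => a C i (d.symm y))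
        (fun i => a_sm C hK i d hd z hz hx) g1 g2 (fun i => a0 C i _) P0 g3 v)
    rw [Finset.sum_sub_distrib, Finset.sum_const, Finset.card_univ, nsmul_eq_mul] at k
    rw [nq_add, nq_sm]
    change _ ≤ _ * (L (fun y => Real.log (∑ i, a C i (d.symm y))) z v + _)
    nlinarith [mul_le_mul_of_nonneg_right c4 (mul_nonneg P0.le (nq0 (C.s0 d hd z hz hx) v))]
  have he : OnK M O fun d z =>
      (M.hs (fun x => Real.log (∑ i, a C i x)) d z + c • S d z).IsHermitian := fun d hd z hz hx =>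
    (hess_herm (sm d hd z hz hx)).add (herm_sm c (C.s0 d hd z hz hx).1)
  have ps : OnK M O fun d z =>
      (M.hs (fun x => Real.log (∑ i, a C i x)) d z + c • S d z).PosSemidef := fun d hd z hz hx =>
    psd (he d hd z hz hx) fun v => le_of_mul_le_mul_left (by
      rw [mul_zero]
      exact (Finset.sum_nonneg fun i _ => t0 i d hd z hz hx v).trans (key d hd z hz hx v))
      (lo _ hx).1
  refine ⟨_, c, c1, sm, fun i x h => ?_, ps, fun i d hd z hz h h4 => ?_⟩
  · rw [Real.exp_log (lo x (C.sub i h)).1]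
    exact ⟨(up i x h).trans (mul_le_mul_of_nonneg_right c3 (nsq0 _)),
      ((lo x (C.sub i h)).2 i h).trans (mul_le_mul_of_nonneg_right c2 (lo x (C.sub i h)).1.le)⟩
  have hx := C.sub i h
  refine psd ((herm_sm c (he d hd z hz hx)).sub (hl0 C hK i d hd z hz h).2.1) fun v => ?_
  have k := (Finset.single_le_sum (f := fun i => a C i (d.symm z) * nq (hl M (C.F i) d z) v)
    (fun j _ => t0 j d hd z hz hx v) (Finset.mem_univ i)).trans (key d hd z hz hx v)
  have k' := mul_le_mul_of_nonneg_right ((up i _ h).trans (mul_le_mul_of_nonneg_right c3 (nsq0 _)))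
    (nq0 (ps d hd z hz hx) v)
  rw [a_eq C h h4] at k
  rw [nq_sub, nq_sm, sub_nonneg]
  exact le_of_mul_le_mul_left ((k.trans k').trans_eq (by ring)) (nsq_pos (C.ne i _ h))

end Pool.Agent.Lib.KQ
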