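import Pool.Agent.Lib.KQ.Blue

/-! Project kq, row ZET: coordinates adapted to a point of a cell. -/

open scoped Classical Topology ContDiff ComplexOrder Matrix ENNReal
open Set MeasureTheory Complex Metric Filter

set_option linter.unusedVariables false

noncomputable section

namespace Pool.Agent.Lib.KQ

open Pool.Agent.Lib.SV (E nsq)
open Pool.Agent.Lib.HS32
open Pool.Agent.Lib.KH (OnK SmK HoK dbv)

namespace ZET

theorem nn {q : ℕ} (a : E q) : 0 ≤ nsq a := Finset.sum_nonneg fun _ _ => normSq_nonneg _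

theorem ps {q : ℕ} {a : E q} (h : a ≠ 0) : 0 < nsq a := by
  obtain ⟨j, hj⟩ := Function.ne_iff.1 h
  exact Finset.sum_pos' (fun _ _ => normSq_nonneg _) ⟨j, Finset.mem_univ _, normSq_pos.2 hj⟩

theorem app {q r : ℕ} (a : E q) (b : E r) : nsq (Fin.append a b) = nsq a + nsq b := by
  simp only [nsq, Fin.sum_univ_add, Fin.append_left, Fin.append_right]

theorem tri2 {q : ℕ} (a b : E q) : nsq a ≤ 2 * nsq (a - b) + 2 * nsq b := by
  simp only [nsq, Finset.mul_sum, ← Finset.sum_add_distrib]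
  refine Finset.sum_le_sum fun j _ => ?_
  simp only [normSq_apply, Pi.sub_apply, sub_re, sub_im]
  nlinarith [sq_nonneg ((a j).re - 2 * (b j).re), sq_nonneg ((a j).im - 2 * (b j).im)]

theorem sm {q : ℕ} (c : ℂ) (a : E q) : nsq (c • a) = normSq c * nsq a := by
  simp only [nsq, Pi.smul_apply, smul_eq_mul, map_mul, Finset.mul_sum]

/-- The pairing with a fixed vector. -/
def pg {q : ℕ} (u v : E q) : ℂ := ∑ l, v l * (starRingEnd ℂ) (u l)

theorem key {q : ℕ} {u v : E q} (hu : nsq u = 1) (h : pg u v ≠ 0) :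
    nsq v = normSq (pg u v) * (nsq ((pg u v)⁻¹ • v - u) + 1) := by
  have e1 : nsq ((pg u v)⁻¹ • v - u) =
      nsq ((pg u v)⁻¹ • v) + nsq u - 2 * ((pg u v)⁻¹ * pg u v).re := by
    nth_rewrite 4 [pg]
    simp only [nsq, Pi.sub_apply, normSq_sub, Finset.sum_sub_distrib, Finset.sum_add_distrib,
      Finset.mul_sum, re_sum, Pi.smul_apply, smul_eq_mul, mul_assoc]
  have e2 : normSq (pg u v) ≠ 0 := (normSq_pos.2 h).ne'
  rw [e1, sm, hu, inv_mul_cancel₀ h, map_inv₀, one_re]
  field_simp
  ring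

theorem unit {q : ℕ} {a : E q} (h : a ≠ 0) :
    ∃ u : E q, nsq u = 1 ∧ pg u a ≠ 0 ∧ (pg u a)⁻¹ • a - u = 0 := by
  have p := ps h
  have s0 : Real.sqrt (nsq a) ≠ 0 := (Real.sqrt_pos.2 p).ne'
  have s1 : ((Real.sqrt (nsq a) : ℝ) : ℂ) ≠ 0 := ofReal_ne_zero.2 s0
  have e : pg (((Real.sqrt (nsq a) : ℝ) : ℂ)⁻¹ • a) a = (Real.sqrt (nsq a) : ℝ) := by
    have e0 : ∑ l, a l * (starRingEnd ℂ) (a l) = (Real.sqrt (nsq a) : ℝ) * (Real.sqrt (nsq a) : ℝ) := by
      rw [← ofReal_mul, Real.mul_self_sqrt p.le]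
      simp only [mul_conj, nsq, ofReal_sum]
    simp only [pg, Pi.smul_apply, smul_eq_mul, map_mul, map_inv₀, conj_ofReal, mul_left_comm (a _),
      ← Finset.mul_sum, e0]
    field_simp
  refine ⟨((Real.sqrt (nsq a) : ℝ) : ℂ)⁻¹ • a, ?_, by rwa [e], by rw [e, sub_self]⟩
  rw [sm, map_inv₀, normSq_ofReal, Real.mul_self_sqrt p.le, inv_mul_cancel₀ p.ne']

variable {n : ℕ} {M : Mf n} {O W : Set M.X}

theorem mono {p : M.Ch → E n → Prop} (h : OnK M O p) (s : W ⊆ O) : OnK M W p :=
  fun e he z hz k => h e he z hz (s k)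

theorem hpg {q : ℕ} {F : M.X → E q} (h : HoV M O F) (u : E q) : HoK M O fun x => pg u (F x) :=
  fun e he z hz k => by
    filter_upwards [eventually_all.2 fun l => h l e he z hz k] with w hw
    exact DifferentiableAt.fun_sum (u := Finset.univ) fun l _ =>
      (hw l).mul_const ((starRingEnd ℂ) (u l))

theorem hinv {g : M.X → ℂ} (h : HoK M W g) (hW : IsOpen W) (h0 : ∀ x ∈ W, g x ≠ 0) :
    HoK M W fun x => (g x)⁻¹ := fun e he z hz k => by
  filter_upwards [h e he z hz k, (e.continuousAt_symm hz).eventually (hW.mem_nhds k)] with w a b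
  exact a.inv (h0 _ b)

theorem psd {A L B : Mat n} {t : ℝ} (t0 : 0 ≤ t) (t1 : t ≤ 1) (hB : B.PosSemidef)
    (h : (L - (1 / (t + 1) ^ 2) • B).PosSemidef) : (A + (4 : ℝ) • L - (A + B)).PosSemidef := by
  have c : 0 ≤ 4 * (1 / (t + 1) ^ 2) - 1 := by
    rw [sub_nonneg, mul_one_div, le_div_iff₀ (by positivity)]
    nlinarith
  have e : A + (4 : ℝ) • L - (A + B) =
      (4 : ℝ) • (L - (1 / (t + 1) ^ 2) • B) + (4 * (1 / (t + 1) ^ 2) - 1) • B := by module
  rw [e]
  exact (Mf.psd_rsmul h (by norm_num)).add (Mf.psd_rsmul hB c)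

end ZET

open ZET in
theorem qZET (hKIT : St_KIT) : St_ZET := by
  intro n M O S ι C i x₀ hO h₀ h₁
  obtain ⟨u, u1, u2, u3⟩ := unit (C.ne i x₀ h₀)
  set g : M.X → ℂ := fun x => pg u (C.F i x) with hg
  set h : M.X → E (C.r i) := fun x => (g x)⁻¹ • C.F i x - u with hh
  have cF := (hKIT n M _ _ _ (C.op i) (C.hF i)).2.1
  have cg : ContinuousOn g (C.V i) := continuousOn_finsetSum _ fun l _ =>
    ((continuous_apply l).comp_continuousOn cF).mul continuousOn_const
  have hW : IsOpen (C.V i ∩ g ⁻¹' {0}ᶜ) := cg.isOpen_inter_preimage (C.op i) isOpen_compl_singleton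
  set W := C.V i ∩ g ⁻¹' {0}ᶜ with hWd
  have sW : W ⊆ C.V i := inter_subset_left
  have g0 : ∀ x ∈ W, g x ≠ 0 := fun x k => k.2
  have Hg : HoK M W g := mono (hpg (C.hF i) u) sW
  have Hi := hinv Hg hW g0
  have Hh : HoV M W h := fun l e he z hz k => by
    filter_upwards [Hi e he z hz k, C.hF i l e he z hz k.1] with w a b
    exact (a.mul b).sub_const (u l)
  have He : HoV M W (C.e i) := fun l => mono (C.he i l) sW
  have He' : HoV M W fun x => C.e i x - C.e i x₀ := fun l e he z hz k =>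
    (He l e he z hz k).mono fun w a => a.sub_const (C.e i x₀ l)
  have ky : ∀ x ∈ W, nsq (C.F i x) = normSq (g x) * (nsq (h x) + 1) := fun x k => key u1 (g0 x k)
  refine ⟨W, g, _, fun x => Fin.append (C.e i x - C.e i x₀) (h x), hW, sW, ⟨h₀, u2⟩, Hg, Hi,
    fun l => ?_, ?_, fun x hx k => ?_, fun x k => ⟨g0 x k, fun b => ?_⟩, fun d hd z hz k b => ?_⟩
  · refine Fin.addCases (fun l => ?_) (fun l => ?_) l
    · simpa only [Fin.append_left] using He' l
    · simpa only [Fin.append_right] using Hh l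
  · have e : h x₀ = 0 := u3
    funext l
    refine Fin.addCases (fun l => ?_) (fun l => ?_) l
    · simp only [Fin.append_left, sub_self, Pi.zero_apply]
    · simp only [Fin.append_right, e, Pi.zero_apply]
  · by_cases a : x ∈ C.V i
    · have z0 : g x = 0 := by_contra fun c => k ⟨a, c⟩
      have c1 : ContinuousAt (fun y => nsq (C.F i y) - 2 * normSq (g y)) x := by
        have cn : Continuous fun v : E (C.r i) => nsq v :=
          continuous_finsetSum _ fun l _ => continuous_normSq.comp (continuous_apply l)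
        exact (cn.continuousAt.comp (cF.continuousAt ((C.op i).mem_nhds a))).sub
          ((continuous_normSq.continuousAt.comp (cg.continuousAt ((C.op i).mem_nhds a))).const_mul 2)
      have c2 : 0 < nsq (C.F i x) - 2 * normSq (g x) := by
        rw [z0, map_zero, mul_zero, sub_zero]
        exact ps (C.ne i x a)
      filter_upwards [c1.eventually (lt_mem_nhds c2)] with y p ky'
      rw [ky y ky'] at p
      have := normSq_pos.2 (g0 y ky')
      have := nn (C.e i y - C.e i x₀)
      rw [app]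
      nlinarith
    · filter_upwards [C.sep i x hx a] with y p ky'
      have := p ky'.1
      have := tri2 (C.e i y) (C.e i x₀)
      have := nn (h y)
      rw [app]
      linarith
  · rw [app] at b
    have := tri2 (C.e i x) (C.e i x₀)
    have := nn (h x)
    have := nn (C.e i x - C.e i x₀)
    have := normSq_nonneg (g x)
    rw [ky x k]
    exact ⟨by linarith, by nlinarith, by nlinarith⟩
  · rw [app] at b
    obtain ⟨s1, -, k1, -⟩ := hKIT n M W _ h hW Hh
    obtain ⟨p1, -, -, -, -, p2⟩ := k1 d hd z hz k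
    have t0 := nn (h (d.symm z))
    obtain ⟨p3, p4⟩ := p2 1 zero_le_one (by linarith)
    have s2 := (hKIT n M W _ _ hW He').1 d hd z hz k
    have p5 := ((hKIT n M W _ _ hW He).2.2.1 d hd z hz k).2.2.2.1 (C.e i x₀)
    obtain ⟨l1, l2, -⟩ := ((mHOL n _ z).2.2 (Hg d hd z hz k)).2.2.2 (g0 _ k)
    have e1 : hn M (fun x => Fin.append (C.e i x - C.e i x₀) (h x)) d z =
        hn M (C.e i) d z + hn M h d z := by
      rw [← p5]
      refine Eq.trans (hess_congr (Eventually.of_forall fun w => ?_))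
        (hess_add (cd_ofReal s2) (cd_ofReal (s1 d hd z hz k)))
      simp only [Mf.lc, app, ofReal_add]
    have e2 : hl M (C.F i) d z = M.hs (fun x => Real.log (nsq (h x) + 1)) d z := by
      have e3 := hess_add (cd_ofReal l1) (cd_ofReal p3)
      rw [l2, zero_add] at e3
      refine Eq.trans (hess_congr ?_) e3
      filter_upwards [(d.continuousAt_symm hz).eventually (hW.mem_nhds k)] with w a
      have := nn (h (d.symm w))
      simp only [Mf.lc, Function.comp]
      rw [ky _ a, Real.log_mul (normSq_pos.2 (g0 _ a)).ne' (by linarith), ofReal_add]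
    rw [e1, e2]
    exact psd t0 (by linarith [nn (C.e i (d.symm z) - C.e i x₀)]) p1 p4

end Pool.Agent.Lib.KQ
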