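import Pool.Agent.Lib.KQ.B_KER
import Pool.Agent.Lib.KQ.B_KIT
import Pool.Agent.Lib.KQ.B_ONE
import Pool.Agent.Lib.KQ.B_P0
import Pool.Agent.Lib.KQ.B_P12
import Pool.Agent.Lib.KQ.B_PK
import Pool.Agent.Lib.KQ.B_PO0
import Pool.Agent.Lib.KQ.B_POL
import Pool.Agent.Lib.KQ.B_WT
import Pool.Agent.Lib.KQ.B_ZET

/-! Project kq: the theorems of the block. -/

namespace Pool.Agent.Lib.KQ

theorem aWT : St_WT := qWT qKIT

theorem aPK : St_PK :=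
  qPK (qP12 qKIT (qPOL qKIT) (qZET qKIT) (qONE qKIT)) (qP0 qKIT (qPO0 qKIT) (qONE qKIT)) qKER

end Pool.Agent.Lib.KQ
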