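import Pool.Agent.Lib.KQ.Blue

/-! Project kq, row KER: the comparison of two kernels. -/

open scoped Classical Topology ENNReal
open Set MeasureTheory Complex Metric Filter

set_option linter.unusedVariables false

noncomputable section

namespace Pool.Agent.Lib.KQ

open Pool.Agent.Lib.SV (E nsq)

namespace KER

variable {Y : Type} [MeasurableSpace Y]

/-- The function times the square root of the weight. -/
def wt (κ : Y → ℝ) (F : Y → ℂ) : Y → ℂ := fun x => F x * ((Real.exp (-κ x / 2) : ℝ) : ℂ)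

theorem wt_sq (ν : Measure Y) (κ : Y → ℝ) (F : Y → ℂ) :
    eLpNorm (wt κ F) 2 ν ^ 2 = Nm ν κ F := by
  have h := eLpNorm_nnreal_pow_eq_lintegral (μ := ν) (f := wt κ F) (p := 2) two_ne_zero
  have h2 : ((2 : NNReal) : ℝ) = ((2 : ℕ) : ℝ) := by norm_num
  rw [h2] at h
  simp only [ENNReal.rpow_natCast, ENNReal.coe_ofNat] at h
  rw [h]
  unfold Nm
  refine lintegral_congr fun x => ?_
  rw [← ofReal_norm, ← ENNReal.ofReal_pow (norm_nonneg _), ← Complex.normSq_eq_norm_sq]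
  congr 1
  unfold wt
  rw [map_mul, Complex.normSq_ofReal, ← Real.exp_add]
  congr 2
  ring

theorem wt_meas {ν : Measure Y} {κ : Y → ℝ} {F : Y → ℂ} (hκ : AEMeasurable κ ν)
    (hF : AEMeasurable F ν) : AEStronglyMeasurable (wt κ F) ν := by
  refine AEMeasurable.aestronglyMeasurable ?_
  unfold wt
  refine hF.mul ?_
  exact Complex.measurable_ofReal.comp_aemeasurable
    (Real.measurable_exp.comp_aemeasurable (hκ.neg.div_const 2))

theorem wt_mem {ν : Measure Y} {κ : Y → ℝ} {F : Y → ℂ} (hκ : AEMeasurable κ ν)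
    (hF : AEMeasurable F ν) (h : Nm ν κ F ≠ ⊤) : MemLp (wt κ F) 2 ν := by
  refine ⟨wt_meas hκ hF, ?_⟩
  rw [← wt_sq] at h
  refine lt_top_iff_ne_top.2 fun h' => h ?_
  rw [h']
  simp

theorem nm_fin {ν : Measure Y} {κ : Y → ℝ} {F : Y → ℂ} (h : MemLp (wt κ F) 2 ν) :
    Nm ν κ F ≠ ⊤ := by
  rw [← wt_sq]
  exact ENNReal.pow_ne_top h.2.ne

theorem wt_add (κ : Y → ℝ) (F G : Y → ℂ) : wt κ (F + G) = wt κ F + wt κ G := by
  funext x
  simp only [wt, Pi.add_apply]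
  ring

theorem wt_smul (κ : Y → ℝ) (c : ℂ) (F : Y → ℂ) : wt κ (c • F) = c • wt κ F := by
  funext x
  simp only [wt, Pi.smul_apply, smul_eq_mul]
  ring

/-- The members of finite norm. -/
def Hs (ν : Measure Y) (V : Submodule ℂ (Y → ℂ)) (κ : Y → ℝ) : Submodule ℂ (Y → ℂ) where
  carrier := {F | F ∈ V ∧ MemLp (wt κ F) 2 ν}
  add_mem' := by
    rintro F G ⟨hF, hF'⟩ ⟨hG, hG'⟩
    refine ⟨V.add_mem hF hG, ?_⟩
    rw [wt_add]
    exact hF'.add hG'
  zero_mem' := by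
    refine ⟨V.zero_mem, ?_⟩
    have : wt κ (0 : Y → ℂ) = 0 := by
      funext x
      simp [wt]
    rw [this]
    exact MemLp.zero
  smul_mem' := by
    rintro c F ⟨hF, hF'⟩
    refine ⟨V.smul_mem c hF, ?_⟩
    rw [wt_smul]
    exact hF'.const_smul c

/-- The map to the space of square integrable classes. -/
def Lm (ν : Measure Y) (V : Submodule ℂ (Y → ℂ)) (κ : Y → ℝ) : Hs ν V κ →ₗ[ℂ] Lp ℂ 2 ν where
  toFun F := F.2.2.toLp (wt κ F.1)
  map_add' F G := by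
    rw [← MemLp.toLp_add]
    refine MemLp.toLp_congr _ _ ?_
    rw [Submodule.coe_add, wt_add]
  map_smul' c F := by
    rw [RingHom.id_apply, ← MemLp.toLp_const_smul]
    refine MemLp.toLp_congr _ _ ?_
    rw [Submodule.coe_smul, wt_smul]

theorem lm_norm (ν : Measure Y) (V : Submodule ℂ (Y → ℂ)) (κ : Y → ℝ) (F : Hs ν V κ) :
    ‖Lm ν V κ F‖ ^ 2 = (Nm ν κ F.1).toReal := by
  have : ‖Lm ν V κ F‖ = (eLpNorm (wt κ F.1) 2 ν).toReal := Lp.norm_toLp _ F.2.2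
  rw [this, ← ENNReal.toReal_pow, wt_sq]

theorem lm_inj (ν : Measure Y) (V : Submodule ℂ (Y → ℂ)) (κ : Y → ℝ)
    (h : ∀ G ∈ V, (∀ᵐ x ∂ν, G x = 0) → G = 0) : LinearMap.ker (Lm ν V κ) = ⊥ := by
  rw [LinearMap.ker_eq_bot']
  intro F hF
  have h1 : (Lm ν V κ F : Y → ℂ) =ᵐ[ν] wt κ F.1 := MemLp.coeFn_toLp F.2.2
  rw [hF] at h1
  refine Subtype.ext (h F.1 F.2.1 ?_)
  filter_upwards [h1, Lp.coeFn_zero ℂ 2 ν] with x hx hx0
  rw [hx0] at hx
  have h2 : F.1 x * ((Real.exp (-κ x / 2) : ℝ) : ℂ) = 0 := hx.symm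
  rcases mul_eq_zero.1 h2 with h3 | h3
  · exact h3
  · exact absurd (Complex.ofReal_eq_zero.1 h3) (Real.exp_pos _).ne'

theorem cs {N : ℕ} (c v : Fin N → ℂ) : normSq (∑ i, c i * v i) ≤ N * ‖c‖ ^ 2 * nsq v := by
  rw [Complex.normSq_eq_norm_sq]
  have h1 : ‖∑ i, c i * v i‖ ≤ ∑ i, ‖c‖ * ‖v i‖ := by
    refine (norm_sum_le _ _).trans (Finset.sum_le_sum fun i _ => ?_)
    rw [norm_mul]
    exact mul_le_mul_of_nonneg_right (norm_le_pi_norm c i) (norm_nonneg _)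
  have h2 := Finset.sum_mul_sq_le_sq_mul_sq Finset.univ (fun _ : Fin N => ‖c‖) (fun i => ‖v i‖)
  have h3 : ∑ i, ‖v i‖ ^ 2 = nsq v := by
    unfold nsq
    exact Finset.sum_congr rfl fun i _ => (Complex.normSq_eq_norm_sq _).symm
  rw [h3] at h2
  simp only [Finset.sum_const, Finset.card_univ, Fintype.card_fin, nsmul_eq_mul] at h2
  exact (pow_le_pow_left₀ (norm_nonneg _) h1 2).trans h2

/-- A basis of the members of finite norm bounds the values by the norm. -/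
theorem key (ν : Measure Y) (V : Submodule ℂ (Y → ℂ)) (κ : Y → ℝ) (hV : FiniteDimensional ℂ V)
    (h : ∀ G ∈ V, AEMeasurable G ν ∧ ((∀ᵐ x ∂ν, G x = 0) → G = 0)) (hκ : AEMeasurable κ ν)
    (F₀ : Y → ℂ) (h0 : F₀ ∈ V) (h1 : Nm ν κ F₀ ≠ ⊤) (h2 : F₀ ≠ 0) :
    ∃ (r : ℕ) (a : Fin (r + 1) → Y → ℂ) (C : ℝ), 0 ≤ C ∧
      (∀ i, a i ∈ V ∧ a i ≠ 0 ∧ Nm ν κ (a i) ≠ ⊤) ∧
      ∀ F ∈ V, Nm ν κ F ≠ ⊤ → ∀ x, normSq (F x) ≤ C * (Nm ν κ F).toReal * nsq (a · x) := by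
  have hle : Hs ν V κ ≤ V := fun F hF => hF.1
  haveI : FiniteDimensional ℂ (Hs ν V κ) := Submodule.finiteDimensional_of_le hle
  have hm0 : F₀ ∈ Hs ν V κ := ⟨h0, wt_mem hκ (h F₀ h0).1 h1⟩
  haveI : Nontrivial (Hs ν V κ) := ⟨⟨⟨F₀, hm0⟩, 0, fun hh => h2 (congrArg Subtype.val hh)⟩⟩
  have hpos : 0 < Module.finrank ℂ (Hs ν V κ) := Module.finrank_pos
  obtain ⟨r, hr⟩ : ∃ r, Module.finrank ℂ (Hs ν V κ) = r + 1 := ⟨_, (Nat.succ_pred_eq_of_pos hpos).symm⟩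
  let b := Module.finBasisOfFinrankEq ℂ (Hs ν V κ) hr
  let T : (Fin (r + 1) → ℂ) →ₗ[ℂ] Lp ℂ 2 ν := (Lm ν V κ).comp b.equivFun.symm.toLinearMap
  have hT : LinearMap.ker T = ⊥ := by
    rw [LinearMap.ker_eq_bot]
    exact (LinearMap.ker_eq_bot.1 (lm_inj ν V κ fun G hG => (h G hG).2)).comp
      b.equivFun.symm.injective
  obtain ⟨K, -, hK⟩ := T.exists_antilipschitzWith hT
  refine ⟨r, fun i => (b i).1, ((r + 1 : ℕ) : ℝ) * (K : ℝ) ^ 2, by positivity,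
    fun i => ⟨(b i).2.1, fun hh => b.ne_zero i (Subtype.ext hh), nm_fin (b i).2.2⟩, ?_⟩
  intro F hF hF' x
  let F' : Hs ν V κ := ⟨F, hF, wt_mem hκ (h F hF).1 hF'⟩
  have e1 : F x = ∑ i, b.equivFun F' i * (b i).1 x := by
    have := congrArg (fun G : Hs ν V κ => G.1 x) (b.sum_equivFun F')
    simp only [Submodule.coe_sum, Submodule.coe_smul, Finset.sum_apply, Pi.smul_apply,
      smul_eq_mul] at this
    exact this.symm
  have e2 : ‖b.equivFun F'‖ ≤ K * ‖Lm ν V κ F'‖ := by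
    have := ZeroHomClass.bound_of_antilipschitz T hK (b.equivFun F')
    simpa [T] using this
  have e3 : ‖b.equivFun F'‖ ^ 2 ≤ (K : ℝ) ^ 2 * (Nm ν κ F).toReal := by
    have := pow_le_pow_left₀ (norm_nonneg _) e2 2
    rwa [mul_pow, lm_norm] at this
  have e4 : 0 ≤ nsq fun i => (b i).1 x := Finset.sum_nonneg fun i _ => normSq_nonneg _
  rw [e1]
  refine (cs _ _).trans (mul_le_mul_of_nonneg_right ?_ e4)
  rw [mul_assoc]
  exact mul_le_mul_of_nonneg_left e3 (by positivity)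

theorem real_le {A : ℝ} {p q : ℝ≥0∞} (hq : q ≠ ⊤) (h : p ≤ ENNReal.ofReal A * q) :
    p ≠ ⊤ ∧ p.toReal ≤ |A| * q.toReal := by
  have h1 : ENNReal.ofReal A * q ≠ ⊤ := ENNReal.mul_ne_top ENNReal.ofReal_ne_top hq
  refine ⟨ne_top_of_le_ne_top h1 h, (ENNReal.toReal_mono h1 h).trans ?_⟩
  rw [ENNReal.toReal_mul]
  refine mul_le_mul_of_nonneg_right ?_ ENNReal.toReal_nonneg
  rw [ENNReal.toReal_ofReal']
  exact max_le (le_abs_self A) (abs_nonneg A)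

end KER

open KER in
theorem qKER : St_KER := by
  intro Y _ ν V O κ κ' t A hV h hκ hκ' ht hyp ⟨F₀, h0, h1, x₀, hx₀, h2⟩
  have nn : ∀ {N : ℕ} (v : Fin N → ℂ), 0 ≤ nsq v :=
    fun v => Finset.sum_nonneg fun i _ => normSq_nonneg _
  obtain ⟨G₀, g0, g1, g2⟩ := (hyp x₀ hx₀).1 F₀ h0 h1
  have g3 : G₀ ≠ 0 := by
    intro hh
    rw [hh] at g1
    have : 0 < t x₀ * normSq (F₀ x₀) := mul_pos (ht x₀) (normSq_pos.2 h2)
    simp only [Pi.zero_apply, map_zero, mul_zero] at g1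
    linarith
  obtain ⟨r, a, C, hC, ha, hb⟩ := key ν V κ hV h hκ F₀ h0 h1 fun hh => h2 (by rw [hh]; rfl)
  obtain ⟨r', b, C', hC', ha', hb'⟩ := key ν V κ' hV h hκ' G₀ g0 (real_le h1 g2).1 g3
  set B₁ : ℝ := ∑ i, |A| * (C' * (|A| * (Nm ν κ (a i)).toReal)) with hB₁
  set B₂ : ℝ := ∑ j, |A| * (C * (|A| * (Nm ν κ' (b j)).toReal)) with hB₂
  have p1 : 0 ≤ B₁ := Finset.sum_nonneg fun i _ => by positivity
  have p2 : 0 ≤ B₂ := Finset.sum_nonneg fun i _ => by positivity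
  refine ⟨r, r', a, b, B₁ + B₂, fun i => ⟨(ha i).1, (ha i).2.1⟩,
    fun j => ⟨(ha' j).1, (ha' j).2.1⟩, fun x hx => ⟨?_, ?_⟩⟩
  · have : t x * nsq (a · x) ≤ B₁ * nsq (b · x) := by
      rw [hB₁, Finset.sum_mul]
      unfold nsq
      rw [Finset.mul_sum]
      refine Finset.sum_le_sum fun i _ => ?_
      obtain ⟨G, k0, k1, k2⟩ := (hyp x hx).1 (a i) (ha i).1 (ha i).2.2
      obtain ⟨k3, k4⟩ := real_le (ha i).2.2 k2
      have k5 := hb' G k0 k3 x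
      have k6 : A * normSq (G x) ≤ |A| * normSq (G x) :=
        mul_le_mul_of_nonneg_right (le_abs_self A) (normSq_nonneg _)
      refine k1.trans (k6.trans ?_)
      rw [mul_assoc]
      refine mul_le_mul_of_nonneg_left (k5.trans ?_) (abs_nonneg A)
      exact mul_le_mul_of_nonneg_right (mul_le_mul_of_nonneg_left k4 hC') (nn _)
    have h5 := mul_nonneg p2 (nn (b · x))
    linarith [add_mul B₁ B₂ (nsq (b · x))]
  · have : nsq (b · x) ≤ B₂ * (t x * nsq (a · x)) := by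
      rw [hB₂, Finset.sum_mul]
      refine Finset.sum_le_sum fun j _ => ?_
      obtain ⟨F, k0, k1, k2⟩ := (hyp x hx).2 (b j) (ha' j).1 (ha' j).2.2
      obtain ⟨k3, k4⟩ := real_le (ha' j).2.2 k2
      have k5 := hb F k0 k3 x
      have k6 : A * (t x * normSq (F x)) ≤ |A| * (t x * normSq (F x)) :=
        mul_le_mul_of_nonneg_right (le_abs_self A) (mul_nonneg (ht x).le (normSq_nonneg _))
      refine k1.trans (k6.trans ?_)
      rw [mul_assoc]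
      refine mul_le_mul_of_nonneg_left ?_ (abs_nonneg A)
      have k7 : normSq (F x) ≤ C * (|A| * (Nm ν κ' (b j)).toReal) * nsq (a · x) :=
        k5.trans (mul_le_mul_of_nonneg_right (mul_le_mul_of_nonneg_left k4 hC) (nn _))
      have k8 := mul_le_mul_of_nonneg_left k7 (ht x).le
      linarith [mul_left_comm (t x) (C * (|A| * (Nm ν κ' (b j)).toReal)) (nsq (a · x))]
    have h5 := mul_nonneg p1 (mul_nonneg (ht x).le (nn (a · x)))
    linarith [add_mul B₁ B₂ (t x * nsq (a · x))]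

end Pool.Agent.Lib.KQ
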