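import Pool.Agent.Lib.KH.Blue

/-! Project kq: peak functions and the comparison of two kernels. Objects and blueprint. -/

open scoped Classical Topology ContDiff ComplexOrder Matrix ENNReal
open Set MeasureTheory Complex Metric Filter

set_option linter.unusedVariables false

noncomputable section

namespace Pool.Agent.Lib.KQ

open Pool.Agent.Lib.SV (E nsq)
open Pool.Agent.Lib.HS32
open Pool.Agent.Lib.KH (OnK SmK HoK dbv)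

section defs

/-- The squared norm for the weight `κ`. -/
def Nm {Y : Type} [MeasurableSpace Y] (ν : Measure Y) (κ : Y → ℝ) (F : Y → ℂ) : ℝ≥0∞ :=
  ∫⁻ x, ENNReal.ofReal (normSq (F x) * Real.exp (-κ x)) ∂ν

variable {n : ℕ} (M : Mf n)

/-- A holomorphic map on `O`. -/
def HoV {q : ℕ} (O : Set M.X) (f : M.X → E q) : Prop := ∀ i, HoK M O fun x => f x i

/-- The Levi form of the squared norm. -/
def hn {q : ℕ} (f : M.X → E q) : M.Fam (Mat n) := M.hs fun x => nsq (f x)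

/-- The Levi form of the logarithm of the squared norm. -/
def hl {q : ℕ} (f : M.X → E q) : M.Fam (Mat n) := M.hs fun x => Real.log (nsq (f x))

/-- The map `f` has squared norm at least `c` near the boundary of `W` in `O`. -/
def Sep {q : ℕ} (O W : Set M.X) (f : M.X → E q) (c : ℝ) : Prop :=
  ∀ x ∈ O, x ∉ W → ∀ᶠ y in 𝓝 x, y ∈ W → c ≤ nsq (f y)

/-- The measure is locally bounded below by the measure of Lebesgue. -/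
def Lo (O : Set M.X) (ν : Measure M.X) : Prop := ∀ x ∈ O, ∃ e ∈ M.C, x ∈ e.source ∧
  ∃ c : ℝ≥0∞, c ≠ ⊤ ∧ ∃ W ∈ 𝓝 (e x), ∀ f : M.X → ℝ, ContinuousOn f O →
    ∫⁻ z in W, ENNReal.ofReal (f (e.symm z)) ≤ c * ∫⁻ x, ENNReal.ofReal (f x) ∂ν

/-- The data of the equation, with the defect `S`. -/
structure Ds (O : Set M.X) (S : M.Fam (Mat n)) (κ β : M.X → ℝ) (Γ : M.X → ℂ) : Prop where
  sf : SmK M O κ
  sg : SmK M O Γ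
  b0 : ∀ x ∈ O, 0 ≤ β x
  pos : OnK M O fun e z => (M.hs κ e z + S e z).PosSemidef
  dom : OnK M O fun e z => ∀ v, normSq (dbv (Γ ∘ e.symm) z v) ≤
    β (e.symm z) * nq (M.hs κ e z + S e z) v

/-- The theorem of Hörmander for data on `O'`, weights below `u`, solutions on `O`. -/
def HqS (O O' : Set M.X) (ν : Measure M.X) (S : M.Fam (Mat n)) (u : M.X → ℝ) (K : ℝ≥0∞) : Prop :=
  ∀ (κ β : M.X → ℝ) (Γ : M.X → ℂ), ContinuousOn β O' → Ds M O' S κ β Γ →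
    (∃ C, ∀ x ∈ O', κ x ≤ u x + C) → Nm ν κ Γ ≠ ⊤ → ∃ F, HoK M O F ∧
      Nm ν κ (fun x => Γ x - F x) ≤ K * ∫⁻ x, ENNReal.ofReal (β x * Real.exp (-κ x)) ∂ν

/-- The frame: two open sets, a measure, a space of finite dimension. -/
structure Fr (O O' : Set M.X) (ν : Measure M.X) (V : Submodule ℂ (M.X → ℂ)) : Prop where
  op : IsOpen O
  op' : IsOpen O'
  sub : O' ⊆ O
  ae : ∀ᵐ x ∂ν, x ∈ O'
  lo : Lo M O' ν
  fd : FiniteDimensional ℂ V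
  hol : ∀ G ∈ V, HoK M O G
  inj : ∀ G ∈ V, (∀ᵐ x ∂ν, G x = 0) → G = 0

/-- The square integrable holomorphic functions are in `V`. -/
def Fd (O : Set M.X) (ν : Measure M.X) (V : Submodule ℂ (M.X → ℂ)) (κ : M.X → ℝ) : Prop :=
  ∀ F, HoK M O F → Nm ν κ F ≠ ⊤ → ∃ G ∈ V, ∀ x ∈ O, G x = F x

/-- The cells. -/
structure Cel (O : Set M.X) (S : M.Fam (Mat n)) (ι : Type) where
  q : ι → ℕ
  r : ι → ℕ
  V : ι → Set M.X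
  e : ∀ i, M.X → E (q i)
  F : ∀ i, M.X → E (r i)
  op : ∀ i, IsOpen (V i)
  sub : ∀ i, V i ⊆ O
  he : ∀ i, HoV M (V i) (e i)
  hF : ∀ i, HoV M (V i) (F i)
  ne : ∀ i, ∀ x ∈ V i, F i x ≠ 0
  cov : ∀ x ∈ O, ∃ i, x ∈ V i ∧ nsq (e i x) < 1
  sep : ∀ i, Sep M O (V i) (e i) 16
  cmp : ∃ c : ℝ, ∀ i j, ∀ x ∈ V i, x ∈ V j → nsq (F i x) ≤ c * nsq (F j x)
  s0 : OnK M O fun d z => (S d z).PosSemidef
  s1 : ∀ i, OnK M (V i) fun d z => nsq (e i (d.symm z)) ≤ 9 → (S d z - hn M (e i) d z).PosSemidef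

variable {M}

/-- The patched weight. -/
structure Cel.Wt {O : Set M.X} {S : M.Fam (Mat n)} {ι : Type} (C : Cel M O S ι) (w : M.X → ℝ)
    (c : ℝ) : Prop where
  c0 : 1 ≤ c
  sm : SmK M O w
  cmp : ∀ i, ∀ x ∈ C.V i, Real.exp (w x) ≤ c * nsq (C.F i x) ∧ nsq (C.F i x) ≤ c * Real.exp (w x)
  pos : OnK M O fun d z => (M.hs w d z + c • S d z).PosSemidef
  fs : ∀ i, OnK M (C.V i) fun d z => nsq (C.e i (d.symm z)) ≤ 4 →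
    (c • (M.hs w d z + c • S d z) - hl M (C.F i) d z).PosSemidef

/-- The weight of level `a`. -/
def ka {Y : Type} {q : ℕ} (n : ℕ) (w : Y → ℝ) (Z : Y → E q) (a : ℕ) (x : Y) : ℝ :=
  a * w x + (n + 1) * Real.log (1 + nsq (Z x))

variable (M)

/-- A sequence of poles at the zeros of `ζ`. -/
structure Pl {q : ℕ} (O W : Set M.X) (T : M.Fam (Mat n)) (ζ : M.X → E q) (l : ℕ → M.X → ℝ)
    (x₀ : M.X) (c : ℝ) : Prop where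
  sm : ∀ j, SmK M O (l j)
  pos : ∀ j, OnK M O fun d z => (T d z + M.hs (l j) d z).PosSemidef
  big : ∀ j, OnK M W fun d z => nsq (ζ (d.symm z)) ≤ 1 →
    (c • (T d z + M.hs (l j) d z) - hn M ζ d z).PosSemidef
  up : ∀ j, ∀ x ∈ O, l j x ≤ c
  sh : ∀ j, ∀ x ∈ W, 1 / 2 ≤ nsq (ζ x) → nsq (ζ x) ≤ 1 → -c ≤ l j x
  dn : ∀ j, ∃ C, ∀ x ∈ W, nsq (ζ x) ≤ 1 → -C ≤ l j x
  pole : ∃ C, ∀ᶠ x in 𝓝 x₀, ∀ j : ℕ, l j x ≤ n * Real.log (nsq (ζ x) + 1 / (j + 1)) + C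

end defs

/-! ### Rows -/

/-- Calculus of holomorphic maps on an open set. -/
def St_KIT : Prop := ∀ (n : ℕ) (M : Mf n) (O : Set M.X) (q : ℕ) (f : M.X → E q), IsOpen O →
  HoV M O f → SmK M O (fun x => nsq (f x)) ∧ ContinuousOn f O ∧
  (OnK M O fun d z => (hn M f d z).PosSemidef ∧
    (∀ v, nq (hn M f d z) v = nsq (fderiv ℂ (f ∘ d.symm) z v)) ∧
    (nsq (f (d.symm z)) • hn M f d z -
      M.ds (fun x => nsq (f x)) (fun x => nsq (f x)) d z).PosSemidef ∧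
    (∀ c : E q, hn M (fun x => f x - c) d z = hn M f d z) ∧
    (∀ t : ℝ, hn M (fun x => (t : ℂ) • f x) d z = t ^ 2 • hn M f d z) ∧
    ∀ s : ℝ, 0 ≤ s → 0 < nsq (f (d.symm z)) + s →
      ContDiffAt ℝ ∞ ((fun x => Real.log (nsq (f x) + s)) ∘ d.symm) z ∧
      (M.hs (fun x => Real.log (nsq (f x) + s)) d z -
        (s / (nsq (f (d.symm z)) + s) ^ 2) • hn M f d z).PosSemidef) ∧
  ∀ (φ : ℝ → ℝ) (g : M.X → ℂ), ContDiff ℝ ∞ φ → HoK M O g →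
    SmK M O (fun x => φ (nsq (f x))) ∧ SmK M O (fun x => (φ (nsq (f x)) : ℂ) * g x) ∧
    OnK M O fun d z => M.hs (fun x => φ (nsq (f x))) d z =
        deriv φ (nsq (f (d.symm z))) • hn M f d z + deriv (deriv φ) (nsq (f (d.symm z))) •
          M.ds (fun x => nsq (f x)) (fun x => nsq (f x)) d z ∧
      ∀ v, normSq (dbv ((fun x => (φ (nsq (f x)) : ℂ) * g x) ∘ d.symm) z v) ≤
        deriv φ (nsq (f (d.symm z))) ^ 2 * normSq (g (d.symm z)) * nsq (f (d.symm z)) *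
          nq (hn M f d z) v

/-- The patched weight exists. -/
def St_WT : Prop := ∀ (n : ℕ) (M : Mf n) (O : Set M.X) (S : M.Fam (Mat n)) (ι : Type) [Fintype ι]
  (C : Cel M O S ι), IsOpen O → ∃ w c, C.Wt w c

/-- The cut poles. -/
def St_POL : Prop := ∀ n : ℕ, ∃ c : ℝ, 1 ≤ c ∧ ∀ (M : Mf n) (O W : Set M.X) (q : ℕ)
  (ζ : M.X → E q) (T : M.Fam (Mat n)) (x₀ : M.X), IsOpen O → IsOpen W → W ⊆ O → HoV M W ζ →
  Sep M O W ζ 1 → x₀ ∈ W → ζ x₀ = 0 → (OnK M O fun d z => (T d z).PosSemidef) →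
  (OnK M W fun d z => nsq (ζ (d.symm z)) ≤ 1 → (T d z - c • hn M ζ d z).PosSemidef) →
  ∃ l, Pl M O W T ζ l x₀ c

/-- The global poles. -/
def St_PO0 : Prop := ∀ (n : ℕ) (M : Mf n) (O : Set M.X) (q : ℕ) (Z : M.X → E q)
  (T : M.Fam (Mat n)) (x₀ : M.X) (r : ℝ), IsOpen O → HoV M O Z → x₀ ∈ O → 0 < r →
  (OnK M O fun d z => (T d z -
    ((n : ℝ) + 1) • M.hs (fun x => Real.log (1 + nsq (Z x))) d z).PosSemidef) →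
  ∃ l c, 0 ≤ c ∧ Pl M O O T (fun x => ((r⁻¹ : ℝ) : ℂ) • (Z x - Z x₀)) l x₀ c

/-- The coordinates adapted to a point of a cell. -/
def St_ZET : Prop := ∀ (n : ℕ) (M : Mf n) (O : Set M.X) (S : M.Fam (Mat n)) (ι : Type)
  (C : Cel M O S ι) (i : ι) (x₀ : M.X), IsOpen O → x₀ ∈ C.V i → nsq (C.e i x₀) < 1 →
  ∃ (W : Set M.X) (g : M.X → ℂ) (q : ℕ) (ζ : M.X → E q), IsOpen W ∧ W ⊆ C.V i ∧ x₀ ∈ W ∧
    HoK M W g ∧ HoK M W (fun x => (g x)⁻¹) ∧ HoV M W ζ ∧ ζ x₀ = 0 ∧ Sep M O W ζ 1 ∧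
    (∀ x ∈ W, g x ≠ 0 ∧ (nsq (ζ x) ≤ 1 → nsq (C.e i x) ≤ 4 ∧ normSq (g x) ≤ nsq (C.F i x) ∧
      nsq (C.F i x) ≤ 2 * normSq (g x))) ∧
    OnK M W fun d z => nsq (ζ (d.symm z)) ≤ 1 →
      (hn M (C.e i) d z + (4 : ℝ) • hl M (C.F i) d z - hn M ζ d z).PosSemidef

/-- One peak function. -/
def St_ONE : Prop := ∀ (c : ℝ) (K : ℝ≥0∞), 0 ≤ c → K ≠ ⊤ → ∃ A : ℝ≥0∞, A ≠ ⊤ ∧
  ∀ (n : ℕ) (M : Mf n) (O O' W : Set M.X) (ν : Measure M.X) (V : Submodule ℂ (M.X → ℂ))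
    (S : M.Fam (Mat n)) (u κ : M.X → ℝ) (q : ℕ) (ζ : M.X → E q) (g : M.X → ℂ) (l : ℕ → M.X → ℝ)
    (x₀ : M.X), 0 < n → Fr M O O' ν V → HqS M O O' ν S u K → Fd M O ν V κ → IsOpen W → W ⊆ O' →
    HoV M W ζ → HoK M W g → Sep M O' W ζ 1 → x₀ ∈ W → ζ x₀ = 0 → SmK M O' κ →
    (∃ C, ∀ x ∈ O', κ x ≤ u x + C) → Pl M O' W (M.hs κ + S) ζ l x₀ c →
    Nm (ν.restrict (W ∩ {x | nsq (ζ x) ≤ 1})) κ g ≠ ⊤ →
    ∃ F ∈ V, F x₀ = g x₀ ∧ Nm ν κ F ≤ A * Nm (ν.restrict (W ∩ {x | nsq (ζ x) ≤ 1})) κ g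

/-- The two extension properties. -/
def St_P12 : Prop := ∀ (n : ℕ) (M : Mf n) (O O' : Set M.X) (S : M.Fam (Mat n)) (ι : Type)
  (C : Cel M O' S ι) (w : M.X → ℝ) (c : ℝ) (q : ℕ) (Z : M.X → E q), 0 < n → C.Wt w c →
  HoV M O Z → ∃ (a : ℕ) (m : ℝ), a * c ≤ m ∧ ∀ (ν : Measure M.X) (V : Submodule ℂ (M.X → ℂ))
    (u : M.X → ℝ) (K : ℝ≥0∞), Fr M O O' ν V → HqS M O O' ν (m • S) u K → K ≠ ⊤ →
    (∀ b ∈ Icc a (a + 1), Fd M O ν V (ka n w Z b) ∧ ∃ C, ∀ x ∈ O', ka n w Z b x ≤ u x + C) →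
    ∃ A : ℝ, ∀ x ∈ O',
      (∀ F ∈ V, Nm ν (ka n w Z a) F ≠ ⊤ → ∃ G ∈ V,
        Real.exp (w x) * normSq (F x) ≤ A * normSq (G x) ∧
        Nm ν (ka n w Z (a + 1)) G ≤ ENNReal.ofReal A * Nm ν (ka n w Z a) F) ∧
      ∀ G ∈ V, Nm ν (ka n w Z (a + 1)) G ≠ ⊤ → ∃ F ∈ V,
        normSq (G x) ≤ A * (Real.exp (w x) * normSq (F x)) ∧
        Nm ν (ka n w Z a) F ≤ ENNReal.ofReal A * Nm ν (ka n w Z (a + 1)) G

/-- The space is not zero. -/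
def St_P0 : Prop := ∀ (n : ℕ) (M : Mf n) (O O' : Set M.X) (S : M.Fam (Mat n)) (w u : M.X → ℝ)
  (q a : ℕ) (Z : M.X → E q) (ν : Measure M.X) (V : Submodule ℂ (M.X → ℂ)) (K : ℝ≥0∞) (x₀ : M.X)
  (r : ℝ), 0 < n → SmK M O' w → (OnK M O' fun d z => ((a : ℝ) • M.hs w d z + S d z).PosSemidef) →
  HoV M O Z → Fr M O O' ν V → HqS M O O' ν S u K → K ≠ ⊤ → Fd M O ν V (ka n w Z a) →
  (∃ C, ∀ x ∈ O', ka n w Z a x ≤ u x + C) → x₀ ∈ O' → 0 < r →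
  ∫⁻ x in {x | nsq (Z x - Z x₀) ≤ r ^ 2}, ENNReal.ofReal (Real.exp (-(a * w x))) ∂ν ≠ ⊤ →
  ∃ F ∈ V, F x₀ = 1 ∧ Nm ν (ka n w Z a) F ≠ ⊤

/-- The comparison of the kernels. -/
def St_KER : Prop := ∀ (Y : Type) [MeasurableSpace Y] (ν : Measure Y) (V : Submodule ℂ (Y → ℂ))
  (O : Set Y) (κ κ' t : Y → ℝ) (A : ℝ), FiniteDimensional ℂ V → (∀ G ∈ V, AEMeasurable G ν ∧
    ((∀ᵐ x ∂ν, G x = 0) → G = 0)) → AEMeasurable κ ν → AEMeasurable κ' ν → (∀ x, 0 < t x) →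
  (∀ x ∈ O, (∀ F ∈ V, Nm ν κ F ≠ ⊤ → ∃ G ∈ V, t x * normSq (F x) ≤ A * normSq (G x) ∧
      Nm ν κ' G ≤ ENNReal.ofReal A * Nm ν κ F) ∧
    ∀ G ∈ V, Nm ν κ' G ≠ ⊤ → ∃ F ∈ V, normSq (G x) ≤ A * (t x * normSq (F x)) ∧
      Nm ν κ F ≤ ENNReal.ofReal A * Nm ν κ' G) →
  (∃ F ∈ V, Nm ν κ F ≠ ⊤ ∧ ∃ x ∈ O, F x ≠ 0) →
  ∃ (r r' : ℕ) (a : Fin (r + 1) → Y → ℂ) (b : Fin (r' + 1) → Y → ℂ) (B : ℝ),
    (∀ i, a i ∈ V ∧ a i ≠ 0) ∧ (∀ j, b j ∈ V ∧ b j ≠ 0) ∧ ∀ x ∈ O,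
      t x * nsq (a · x) ≤ B * nsq (b · x) ∧ nsq (b · x) ≤ B * (t x * nsq (a · x))

/-- The theorem of the block. -/
def St_PK : Prop := ∀ (n : ℕ) (M : Mf n) (O O' : Set M.X) (S : M.Fam (Mat n)) (ι : Type)
  (C : Cel M O' S ι) (w : M.X → ℝ) (c : ℝ) (q : ℕ) (Z : M.X → E q), 0 < n → C.Wt w c →
  HoV M O Z → ∃ (a : ℕ) (m : ℝ), 0 ≤ m ∧ ∀ (ν : Measure M.X) (V : Submodule ℂ (M.X → ℂ))
    (u : M.X → ℝ) (K : ℝ≥0∞), Fr M O O' ν V → HqS M O O' ν (m • S) u K → K ≠ ⊤ →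
    (∀ b ∈ Icc a (a + 1), Fd M O ν V (ka n w Z b) ∧ ∃ C, ∀ x ∈ O', ka n w Z b x ≤ u x + C) →
    (∃ x₀ ∈ O', ∃ r > (0 : ℝ),
      ∫⁻ x in {x | nsq (Z x - Z x₀) ≤ r ^ 2}, ENNReal.ofReal (Real.exp (-(a * w x))) ∂ν ≠ ⊤) →
    ∃ (r r' : ℕ) (a : Fin (r + 1) → M.X → ℂ) (b : Fin (r' + 1) → M.X → ℂ) (B : ℝ),
      (∀ i, a i ∈ V ∧ a i ≠ 0) ∧ (∀ j, b j ∈ V ∧ b j ≠ 0) ∧ ∀ x ∈ O',
        Real.exp (w x) * nsq (a · x) ≤ B * nsq (b · x) ∧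
        nsq (b · x) ≤ B * (Real.exp (w x) * nsq (a · x))

end Pool.Agent.Lib.KQ
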